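import Pool.Agent.H78Z.AE.Defs

namespace Pool.Agent.H78Z.AE

open Real Filter Topology

abbrev E := ℝ × ℝ × ℝ

def d2 (p q : E) : ℝ := (p.1 - q.1) ^ 2 + (p.2.1 - q.2.1) ^ 2 + (p.2.2 - q.2.2) ^ 2

noncomputable def Q (z s : E) : ℝ := d2 z s / s.2.2

lemma d2_nonneg (p q : E) : 0 ≤ d2 p q := by unfold d2; positivity

lemma d2_comm (p q : E) : d2 p q = d2 q p := by unfold d2; ring

lemma d2_self (p : E) : d2 p p = 0 := by unfold d2; ring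

lemma d2_pos {p q : E} (h : p ≠ q) : 0 < d2 p q := by
  refine lt_of_le_of_ne (d2_nonneg p q) fun e => h ?_
  unfold d2 at e
  have h1 : p.1 - q.1 = 0 := by nlinarith [sq_nonneg (p.1 - q.1), sq_nonneg (p.2.1 - q.2.1), sq_nonneg (p.2.2 - q.2.2)]
  have h2 : p.2.1 - q.2.1 = 0 := by nlinarith [sq_nonneg (p.1 - q.1), sq_nonneg (p.2.1 - q.2.1), sq_nonneg (p.2.2 - q.2.2)]
  have h3 : p.2.2 - q.2.2 = 0 := by nlinarith [sq_nonneg (p.1 - q.1), sq_nonneg (p.2.1 - q.2.1), sq_nonneg (p.2.2 - q.2.2)]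
  exact Prod.ext (by linarith) (Prod.ext (by linarith) (by linarith))

lemma Q_nonneg (z : E) {s : E} (hs : s ∈ Hs) : 0 ≤ Q z s := div_nonneg (d2_nonneg _ _) (le_of_lt hs)

lemma hdist_eq {z s : E} (hz : z ∈ Hs) (hs : s ∈ Hs) :
    hdist z s = arcosh (1 + Q z s / (2 * z.2.2)) := by
  unfold hdist Q d2
  have h1 : z.2.2 ≠ 0 := ne_of_gt hz
  have h2 : s.2.2 ≠ 0 := ne_of_gt hs
  congr 2
  field_simp

lemma hdist_le_iff {z p q : E} (hz : z ∈ Hs) (hp : p ∈ Hs) (hq : q ∈ Hs) :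
    hdist z p ≤ hdist z q ↔ Q z p ≤ Q z q := by
  have h0 : 0 < z.2.2 := hz
  have h1 := Q_nonneg z hp
  have h2 := Q_nonneg z hq
  rw [hdist_eq hz hp, hdist_eq hz hq, arcosh_le_arcosh (by positivity) (by positivity),
    add_le_add_iff_left, div_le_div_iff_of_pos_right (by positivity)]

lemma hdist_eq_iff {z p q : E} (hz : z ∈ Hs) (hp : p ∈ Hs) (hq : q ∈ Hs) :
    hdist z p = hdist z q ↔ Q z p = Q z q := by
  rw [le_antisymm_iff, le_antisymm_iff, hdist_le_iff hz hp hq, hdist_le_iff hz hq hp]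

lemma mem_cell {S : Set E} (hS : S ⊆ Hs) {p z : E} (hp : p ∈ Hs) :
    z ∈ cell S p ↔ z ∈ Hs ∧ ∀ q ∈ S, Q z p ≤ Q z q := by
  constructor
  · rintro ⟨hz, h⟩
    exact ⟨hz, fun q hq => (hdist_le_iff hz hp (hS hq)).1 (h q hq)⟩
  · rintro ⟨hz, h⟩
    exact ⟨hz, fun q hq => (hdist_le_iff hz hp (hS hq)).2 (h q hq)⟩

lemma continuous_Q (s : E) : Continuous fun z => Q z s := by
  unfold Q d2; fun_prop

def Reg (x0 lo hi : ℝ) : Set E :=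
  {z | |z.1 - x0| ≤ hi ∧ |z.2.1| ≤ hi ∧ lo ≤ z.2.2 ∧ z.2.2 ≤ hi}

lemma Reg_mono {x0 lo hi lo' hi' : ℝ} (h1 : lo' ≤ lo) (h2 : hi ≤ hi') :
    Reg x0 lo hi ⊆ Reg x0 lo' hi' := fun _ hz =>
  ⟨hz.1.trans h2, hz.2.1.trans h2, h1.trans hz.2.2.1, hz.2.2.2.trans h2⟩

def LocFin (S : Set E) : Prop := ∀ b : ℝ, 1 ≤ b → (S ∩ Reg 0 (1 / b) b).Finite

lemma exists_reg {z : E} (hz : z ∈ Hs) (c : ℝ) :
    ∃ b : ℝ, 1 ≤ b ∧ c < b ∧ |z.1 - 0| < b ∧ |z.2.1| < b ∧ 1 / b < z.2.2 ∧ z.2.2 < b := by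
  have h0 : 0 < z.2.2 := hz
  refine ⟨1 + |c| + |z.1 - 0| + |z.2.1| + z.2.2 + 1 / z.2.2, ?_, ?_, ?_, ?_, ?_, ?_⟩
  · have : 0 ≤ |c| + |z.1 - 0| + |z.2.1| + z.2.2 + 1 / z.2.2 := by positivity
    linarith
  · have : 0 ≤ |z.1 - 0| + |z.2.1| + z.2.2 + 1 / z.2.2 := by positivity
    linarith [le_abs_self c]
  · have : 0 ≤ |c| + |z.2.1| + z.2.2 + 1 / z.2.2 := by positivity
    linarith
  · have : 0 ≤ |c| + |z.1 - 0| + z.2.2 + 1 / z.2.2 := by positivity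
    linarith
  · rw [one_div_lt (by positivity) h0]
    have : 0 ≤ |c| + |z.1 - 0| + |z.2.1| + z.2.2 := by positivity
    linarith
  · have : 0 ≤ |c| + |z.1 - 0| + |z.2.1| + 1 / z.2.2 := by positivity
    linarith

lemma reg_of_Q {b : ℝ} (hb : 1 ≤ b) {w s : E} (hw : w ∈ Reg 0 (1 / b) b) (hs : s ∈ Hs)
    (h : Q w s ≤ b) : s ∈ Reg 0 (1 / (3 * b ^ 3)) (3 * b ^ 3) := by
  have h0 : 0 < s.2.2 := hs
  obtain ⟨w1, w2, w3, w4⟩ := hw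
  unfold Q at h
  rw [div_le_iff₀ h0] at h
  unfold d2 at h
  have hb0 : 0 < b := by linarith
  have w5 : 0 < w.2.2 := lt_of_lt_of_le (by positivity) w3
  have a1 : (w.1 - s.1) ^ 2 ≤ b * s.2.2 := by nlinarith [sq_nonneg (w.2.1 - s.2.1), sq_nonneg (w.2.2 - s.2.2)]
  have a2 : (w.2.1 - s.2.1) ^ 2 ≤ b * s.2.2 := by nlinarith [sq_nonneg (w.1 - s.1), sq_nonneg (w.2.2 - s.2.2)]
  have a3 : (w.2.2 - s.2.2) ^ 2 ≤ b * s.2.2 := by nlinarith [sq_nonneg (w.2.1 - s.2.1), sq_nonneg (w.1 - s.1)]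
  have a4 : s.2.2 ≤ 3 * b := by
    by_contra hc
    push Not at hc
    nlinarith
  have a5 : b ≤ b ^ 3 := by nlinarith [mul_nonneg (sub_nonneg.2 hb) (by positivity : 0 ≤ b * (b + 1))]
  have a6 : |w.1 - s.1| ≤ 2 * b := abs_le_of_sq_le_sq' (by nlinarith) (by linarith) |> abs_le.2
  have a7 : |w.2.1 - s.2.1| ≤ 2 * b := abs_le_of_sq_le_sq' (by nlinarith) (by linarith) |> abs_le.2
  rw [abs_le] at a6 a7 w1 w2
  refine ⟨abs_le.2 ⟨by linarith, by linarith⟩, abs_le.2 ⟨by linarith, by linarith⟩, ?_, by linarith⟩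
  rw [div_le_iff₀ hb0] at w3
  rw [div_le_iff₀ (by positivity)]
  have a8 : w.2.2 ^ 2 ≤ 3 * b * s.2.2 := by nlinarith
  have a9 : 1 ≤ (w.2.2 * b) ^ 2 := by nlinarith
  nlinarith [mul_le_mul_of_nonneg_left a8 (sq_nonneg b)]

lemma one_le_cube {b : ℝ} (hb : 1 ≤ b) : 1 ≤ 3 * b ^ 3 := by
  have := one_le_pow₀ (n := 3) hb
  linarith

lemma LocFin.countable {S : Set E} (hS : S ⊆ Hs) (h : LocFin S) : S.Countable := by
  have : S ⊆ ⋃ n : ℕ, S ∩ Reg 0 (1 / (n + 1 : ℝ)) (n + 1) := by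
    intro z hz
    obtain ⟨b, h1, -, h2, h3, h4, h5⟩ := exists_reg (hS hz) 0
    obtain ⟨n, hn⟩ := exists_nat_ge b
    refine Set.mem_iUnion.2 ⟨n, hz, Reg_mono ?_ (by linarith) ⟨h2.le, h3.le, h4.le, h5.le⟩⟩
    exact one_div_le_one_div_of_le (by linarith) (by linarith)
  refine Set.Countable.mono this (Set.countable_iUnion fun n => (h _ ?_).countable)
  have : (0 : ℝ) ≤ n := by positivity
  linarith

lemma LocFin.cover {S : Set E} (hS : S ⊆ Hs) (h : LocFin S) (hne : S.Nonempty) {z : E}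
    (hz : z ∈ Hs) : ∃ u ∈ S, z ∈ cell S u := by
  obtain ⟨p0, hp0⟩ := hne
  obtain ⟨b, h1, h0, h2, h3, h4, h5⟩ := exists_reg hz (Q z p0)
  have hf : {s ∈ S | Q z s ≤ Q z p0}.Finite := by
    refine (h _ (one_le_cube h1)).subset fun s hs => ⟨hs.1, ?_⟩
    exact reg_of_Q h1 ⟨h2.le, h3.le, h4.le, h5.le⟩ (hS hs.1) (hs.2.trans h0.le)
  obtain ⟨p, hp, hmin⟩ := Set.exists_min_image _ (fun s => Q z s) hf ⟨p0, hp0, le_rfl⟩
  refine ⟨p, hp.1, (mem_cell hS (hS hp.1)).2 ⟨hz, fun q hq => ?_⟩⟩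
  by_cases hq2 : Q z q ≤ Q z p0
  · exact hmin q ⟨hq, hq2⟩
  · linarith [hp.2]

lemma LocFin.meets {S : Set E} (hS : S ⊆ Hs) (h : LocFin S) {b : ℝ} (hb : 1 ≤ b) :
    {u ∈ S | ∃ z ∈ Reg 0 (1 / b) b, z ∈ cell S u}.Finite := by
  rcases S.eq_empty_or_nonempty with rfl | ⟨p0, hp0⟩
  · simp
  have hc : IsCompact (Reg 0 (1 / b) b) := by
    have : Reg 0 (1 / b) b = Set.Icc (-b) b ×ˢ Set.Icc (-b) b ×ˢ Set.Icc (1 / b) b := by
      ext z; simp only [Reg, Set.mem_prod, Set.mem_Icc, abs_le, sub_zero, Set.mem_setOf_eq]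
    rw [this]
    exact isCompact_Icc.prod (isCompact_Icc.prod isCompact_Icc)
  obtain ⟨C, hC⟩ := (hc.image (continuous_Q p0)).bddAbove
  have hb' : 1 ≤ max b C := le_max_of_le_left hb
  refine (h _ (one_le_cube hb')).subset ?_
  rintro u ⟨hu, z, hz, hzu⟩
  refine ⟨hu, reg_of_Q hb' (Reg_mono ?_ (le_max_left _ _) hz) (hS hu) ?_⟩
  · exact one_div_le_one_div_of_le (by linarith) (le_max_left _ _)
  · exact (((mem_cell hS (hS hu)).1 hzu).2 p0 hp0).trans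
      ((hC ⟨z, hz, rfl⟩).trans (le_max_right _ _))

lemma LocFin.eventually {S : Set E} (hS : S ⊆ Hs) (h : LocFin S) {z u : E} (hz : z ∈ Hs)
    (A : Set E) (hA : A ⊆ S) (hlt : ∀ s ∈ A, Q z u < Q z s) :
    ∀ᶠ w in 𝓝 z, w ∈ Hs ∧ ∀ s ∈ A, Q w u ≤ Q w s := by
  obtain ⟨b, h1, h0, h2, h3, h4, h5⟩ := exists_reg hz (Q z u)
  have e0 : ∀ᶠ w in 𝓝 z, Q w u < b := (continuous_Q u).continuousAt.eventually_lt continuousAt_const h0
  have e2 : ∀ᶠ w : E in 𝓝 z, |w.1 - 0| < b :=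
    (by fun_prop : Continuous fun w : E => |w.1 - 0|).continuousAt.eventually_lt continuousAt_const h2
  have e3 : ∀ᶠ w : E in 𝓝 z, |w.2.1| < b :=
    (by fun_prop : Continuous fun w : E => |w.2.1|).continuousAt.eventually_lt continuousAt_const h3
  have e4 : ∀ᶠ w : E in 𝓝 z, 1 / b < w.2.2 :=
    continuousAt_const.eventually_lt (by fun_prop : Continuous fun w : E => w.2.2).continuousAt h4
  have e5 : ∀ᶠ w : E in 𝓝 z, w.2.2 < b :=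
    (by fun_prop : Continuous fun w : E => w.2.2).continuousAt.eventually_lt continuousAt_const h5
  have hf : (A ∩ Reg 0 (1 / (3 * b ^ 3)) (3 * b ^ 3)).Finite :=
    (h _ (one_le_cube h1)).subset (Set.inter_subset_inter_left _ hA)
  have e6 : ∀ᶠ w in 𝓝 z, ∀ s ∈ A ∩ Reg 0 (1 / (3 * b ^ 3)) (3 * b ^ 3), Q w u < Q w s :=
    (eventually_all_finite hf).2 fun s hs =>
      (continuous_Q u).continuousAt.eventually_lt (continuous_Q s).continuousAt (hlt s hs.1)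
  filter_upwards [e0, e2, e3, e4, e5, e6] with w w0 w2 w3 w4 w5 w6
  refine ⟨lt_trans (by positivity) w4, fun s hs => ?_⟩
  by_cases hq : Q w s ≤ b
  · exact (w6 s ⟨hs, reg_of_Q h1 ⟨w2.le, w3.le, w4.le, w5.le⟩ (hS (hA hs)) hq⟩).le
  · linarith

lemma hdist_small {z : E} (hz : z ∈ Hs) {O : Set E} (hO : O ∈ 𝓝 z) :
    ∃ ε : ℝ, 0 < ε ∧ ∀ w ∈ Hs, hdist w z < ε → w ∈ O := by
  obtain ⟨δ, hδ, hb⟩ := Metric.mem_nhds_iff.1 hO
  have h0 : 0 < z.2.2 := hz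
  set η := min (1 / 2) (δ ^ 2 / (6 * z.2.2 ^ 2)) with hη
  have hη0 : 0 < η := lt_min (by norm_num) (by positivity)
  have hη1 : η ≤ 1 / 2 := min_le_left _ _
  have hη2 : η * (6 * z.2.2 ^ 2) ≤ δ ^ 2 := by
    rw [← le_div_iff₀ (by positivity)]; exact min_le_right _ _
  refine ⟨arcosh (1 + η), arcosh_pos (by linarith), fun w hw hlt => hb ?_⟩
  have w0 : 0 < w.2.2 := hw
  have hq := Q_nonneg w hz
  rw [hdist_eq hw hz, arcosh_lt_arcosh (by positivity) (by positivity), add_lt_add_iff_left,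
    div_lt_iff₀ (by positivity)] at hlt
  unfold Q at hlt
  rw [div_lt_iff₀ h0] at hlt
  have a1 : (w.2.2 - z.2.2) ^ 2 ≤ d2 w z := by
    unfold d2; nlinarith [sq_nonneg (w.1 - z.1), sq_nonneg (w.2.1 - z.2.1)]
  have a2 : 2 * w.2.2 * z.2.2 ≤ 3 * z.2.2 ^ 2 + d2 w z := by nlinarith [sq_nonneg (w.2.2 - 2 * z.2.2)]
  have a3 : d2 w z < δ ^ 2 := by nlinarith [d2_nonneg w z, mul_le_mul_of_nonneg_left a2 hη0.le]
  unfold d2 at a3
  rw [Metric.mem_ball, Prod.dist_eq, Prod.dist_eq, max_lt_iff, max_lt_iff, Real.dist_eq,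
    Real.dist_eq, Real.dist_eq]
  refine ⟨abs_lt_of_sq_lt_sq ?_ hδ.le, abs_lt_of_sq_lt_sq ?_ hδ.le, abs_lt_of_sq_lt_sq ?_ hδ.le⟩ <;>
    nlinarith [sq_nonneg (w.1 - z.1), sq_nonneg (w.2.1 - z.2.1), sq_nonneg (w.2.2 - z.2.2)]

lemma adj_of_strict {S : Set E} (hS : S ⊆ Hs) (h : LocFin S) {u v : S} (huv : u ≠ v) {z : E}
    (hz : z ∈ Hs) (heq : Q z u = Q z v)
    (hlt : ∀ s ∈ S, s ≠ u → s ≠ v → Q z u < Q z s) : (vorGraph S).Adj u v := by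
  have e := h.eventually hS (u := u) hz {s ∈ S | s ≠ u ∧ s ≠ v} (fun s hs => hs.1)
    (fun s hs => hlt s hs.1 hs.2.1 hs.2.2)
  obtain ⟨ε, hε, hw⟩ := hdist_small hz e
  refine ⟨huv, z, hz, (hdist_eq_iff hz (hS u.2) (hS v.2)).2 heq, ε, hε, fun w hw1 hw2 hw3 => ?_⟩
  rw [hdist_eq_iff hw1 (hS u.2) (hS v.2)] at hw3
  have key : ∀ q ∈ S, Q w u ≤ Q w q := by
    intro q hq
    by_cases h1 : q = u
    · rw [h1]
    by_cases h2 : q = v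
    · rw [h2, hw3]
    exact (hw w hw1 hw2).2 q ⟨hq, h1, h2⟩
  exact ⟨(mem_cell hS (hS u.2)).2 ⟨hw1, key⟩, (mem_cell hS (hS v.2)).2 ⟨hw1, hw3 ▸ key⟩⟩

lemma cell_nhds {S : Set E} (hS : S ⊆ Hs) (h : LocFin S) {u : E} (hu : u ∈ S) :
    cell S u ∈ 𝓝 u := by
  have e := h.eventually hS (u := u) (hS hu) {s ∈ S | s ≠ u} (fun s hs => hs.1) (fun s hs => by
    unfold Q
    rw [d2_self, zero_div]
    exact div_pos (d2_pos (Ne.symm hs.2)) (hS hs.1))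
  filter_upwards [e] with w hw
  refine (mem_cell hS (hS hu)).2 ⟨hw.1, fun q hq => ?_⟩
  by_cases h1 : q = u
  · rw [h1]
  · exact hw.2 q ⟨hq, h1⟩

/-- an open Euclidean ball inside the half-space missing `S` -/
def EB (S : Set E) (c : E) (ρ : ℝ) : Prop := 0 ≤ ρ ∧ ρ < c.2.2 ∧ ∀ s ∈ S, ρ ^ 2 ≤ d2 s c

lemma ball_of_cell {S : Set E} (hS : S ⊆ Hs) {u z : E} (hu : u ∈ S) (hz : z ∈ cell S u) :
    ∃ c ρ, EB S c ρ ∧ d2 z c ≤ ρ ^ 2 ∧ ∀ v ∈ S, z ∈ cell S v → d2 v c ≤ ρ ^ 2 := by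
  obtain ⟨hz0, hz1⟩ := (mem_cell hS (hS hu)).1 hz
  have h0 : 0 < z.2.2 := hz0
  set K := Q z u with hK
  have hK0 : 0 ≤ K := Q_nonneg z (hS hu)
  have hT : 0 ≤ K * z.2.2 + K ^ 2 / 4 := by positivity
  have hsq := sq_sqrt hT
  have key : ∀ s : E, s ∈ Hs → d2 s (z.1, z.2.1, z.2.2 + K / 2) - (K * z.2.2 + K ^ 2 / 4) =
      (Q z s - K) * s.2.2 := by
    intro s hs
    have : s.2.2 ≠ 0 := ne_of_gt hs
    unfold Q d2
    field_simp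
    ring
  refine ⟨(z.1, z.2.1, z.2.2 + K / 2), √(K * z.2.2 + K ^ 2 / 4), ⟨sqrt_nonneg _, ?_, ?_⟩, ?_, ?_⟩
  · rw [sqrt_lt' (by positivity)]
    nlinarith
  · intro s hs
    rw [hsq]
    have h1 := key s (hS hs)
    have h2 : 0 ≤ (Q z s - K) * s.2.2 := mul_nonneg (sub_nonneg.2 (hz1 s hs)) (le_of_lt (hS hs))
    linarith
  · rw [hsq]
    unfold d2
    nlinarith
  · intro v hv hzv
    rw [hsq]
    have h1 := key v (hS hv)
    have h2 : (Q z v - K) * v.2.2 ≤ 0 := mul_nonpos_of_nonpos_of_nonneg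
      (sub_nonpos.2 (((mem_cell hS (hS hv)).1 hzv).2 u hu)) (le_of_lt (hS hv))
    linarith

lemma ball_of_adj {S : Set E} (hS : S ⊆ Hs) {u v : S} (h : (vorGraph S).Adj u v) :
    ∃ c ρ, EB S c ρ ∧ d2 u c ≤ ρ ^ 2 ∧ d2 v c ≤ ρ ^ 2 := by
  obtain ⟨-, z, hz, h1, ε, hε, h2⟩ := h
  have h3 := h2 z hz (by simpa [hdist] using hε) h1
  obtain ⟨c, ρ, e1, -, e2⟩ := ball_of_cell hS u.2 h3.1
  exact ⟨c, ρ, e1, e2 u u.2 h3.1, e2 v v.2 h3.2⟩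

lemma adj_of_ball {S : Set E} (hS : S ⊆ Hs) (h : LocFin S) {u v : S} (huv : u ≠ v) {c : E}
    (hc : d2 u c < c.2.2 ^ 2) (heq : d2 u c = d2 v c)
    (hlt : ∀ s ∈ S, s ≠ u → s ≠ v → d2 u c < d2 s c) : (vorGraph S).Adj u v := by
  set T := d2 (u : E) c with hT
  have h1 : √(c.2.2 ^ 2 - T) ^ 2 = c.2.2 ^ 2 - T := sq_sqrt (by linarith)
  have key : ∀ s : E, s ∈ Hs → Q (c.1, c.2.1, √(c.2.2 ^ 2 - T)) s =
      2 * (c.2.2 - √(c.2.2 ^ 2 - T)) + (d2 s c - T) / s.2.2 := by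
    intro s hs
    have : s.2.2 ≠ 0 := ne_of_gt hs
    unfold Q d2
    field_simp
    linear_combination h1
  refine adj_of_strict hS h huv (z := (c.1, c.2.1, √(c.2.2 ^ 2 - T)))
    (sqrt_pos.2 (by linarith)) ?_ ?_
  · rw [key u (hS u.2), key v (hS v.2), ← heq, ← hT]; simp
  · intro s hs h2 h3
    rw [key u (hS u.2), key s (hS hs), ← hT, sub_self, zero_div, add_lt_add_iff_left]
    exact div_pos (sub_pos.2 (hlt s hs h2 h3)) (hS hs)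

end Pool.Agent.H78Z.AE
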