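import Pool.Agent.H78Z.AE.A

namespace Pool.Agent.H78Z.AE

open Real Filter Topology

def IsQ (f : E → ℝ) : Prop :=
  ∃ α β γ δ : ℝ, ∀ z : E, f z = α * (z.1 ^ 2 + z.2.1 ^ 2 + z.2.2 ^ 2) + β * z.1 + γ * z.2.1 + δ

lemma isQ_sub {s t : E} (hs : s ∈ Hs) (ht : t ∈ Hs) : IsQ fun z => Q z s - Q z t := by
  have h1 : s.2.2 ≠ 0 := ne_of_gt hs
  have h2 : t.2.2 ≠ 0 := ne_of_gt ht
  refine ⟨1 / s.2.2 - 1 / t.2.2, -2 * s.1 / s.2.2 + 2 * t.1 / t.2.2,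
    -2 * s.2.1 / s.2.2 + 2 * t.2.1 / t.2.2,
    (s.1 ^ 2 + s.2.1 ^ 2 + s.2.2 ^ 2) / s.2.2 - (t.1 ^ 2 + t.2.1 ^ 2 + t.2.2 ^ 2) / t.2.2,
    fun z => ?_⟩
  unfold Q d2
  field_simp
  ring

lemma IsQ.comb {f g : E → ℝ} (hf : IsQ f) (hg : IsQ g) (A B : ℝ) :
    IsQ fun z => A * f z - B * g z := by
  obtain ⟨a, b, c, d, h⟩ := hf
  obtain ⟨a', b', c', d', h'⟩ := hg
  exact ⟨A * a - B * a', A * b - B * b', A * c - B * c', A * d - B * d', fun z => by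
    simp only [h, h']; ring⟩

lemma IsQ.isOpen {f : E → ℝ} (hf : IsQ f) : IsOpen {z | f z ≠ 0} := by
  obtain ⟨a, b, c, d, h⟩ := hf
  have : f = fun z : E => a * (z.1 ^ 2 + z.2.1 ^ 2 + z.2.2 ^ 2) + b * z.1 + c * z.2.1 + d :=
    funext h
  rw [this]
  exact isOpen_ne_fun (by fun_prop) continuous_const

lemma IsQ.dense {f : E → ℝ} (hf : IsQ f) (hne : ∃ z, f z ≠ 0) : Dense {z | f z ≠ 0} := by
  obtain ⟨a, b, c, d, h⟩ := hf
  rw [Metric.dense_iff]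
  intro z r hr
  by_contra hc
  rw [Set.not_nonempty_iff_eq_empty, Set.eq_empty_iff_forall_notMem] at hc
  have key : ∀ t1 t2 t3 : ℝ, |t1| < r → |t2| < r → |t3| < r →
      f (z.1 + t1, z.2.1 + t2, z.2.2 + t3) = 0 := by
    intro t1 t2 t3 h1 h2 h3
    by_contra hn
    refine hc _ ⟨?_, hn⟩
    rw [Metric.mem_ball, Prod.dist_eq, Prod.dist_eq, max_lt_iff, max_lt_iff, Real.dist_eq,
      Real.dist_eq, Real.dist_eq]
    simpa using ⟨h1, h2, h3⟩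
  have p0 : |(0 : ℝ)| < r := by simpa using hr
  have p1 : |r / 2| < r := by rw [abs_of_pos (by linarith)]; linarith
  have p2 : |-(r / 2)| < r := by rw [abs_neg]; exact p1
  have e0 := key 0 0 0 p0 p0 p0
  have e1 := key 0 0 (r / 2) p0 p0 p1
  have e2 := key 0 0 (-(r / 2)) p0 p0 p2
  have e3 := key (r / 2) 0 0 p1 p0 p0
  have e4 := key 0 (r / 2) 0 p0 p1 p0
  simp only [h] at e0 e1 e2 e3 e4
  have ha : a * r ^ 2 = 0 := by linear_combination 2 * e1 + 2 * e2 - 4 * e0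
  have ha0 : a = 0 := (mul_eq_zero.1 ha).resolve_right (by positivity)
  subst ha0
  have hb : b * r = 0 := by linear_combination 2 * e3 - 2 * e0
  have hb0 : b = 0 := (mul_eq_zero.1 hb).resolve_right hr.ne'
  have hc' : c * r = 0 := by linear_combination 2 * e4 - 2 * e0
  have hc0 : c = 0 := (mul_eq_zero.1 hc').resolve_right hr.ne'
  subst hb0 hc0
  obtain ⟨w, hw⟩ := hne
  apply hw
  rw [h]
  linarith

lemma generic {ι : Type} [Countable ι] (f : ι → E → ℝ) (h1 : ∀ i, IsQ (f i))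
    (h2 : ∀ i, ∃ z, f i z ≠ 0) {O : Set E} {a : E} (hO : O ∈ 𝓝 a) : ∃ z ∈ O, ∀ i, f i z ≠ 0 := by
  have hd := dense_iInter_of_isOpen (fun i => (h1 i).isOpen) (fun i => (h1 i).dense (h2 i))
  obtain ⟨z, hz1, hz2⟩ := hd.inter_nhds_nonempty hO
  exact ⟨z, hz2, Set.mem_iInter.1 hz1⟩

lemma nondeg {s t u : E} (hs : s ∈ Hs) (ht : t ∈ Hs) (hu : u ∈ Hs) (h2 : s ≠ u)
    (h3 : t ≠ u) {A B : ℝ} (hA : A ≠ 0) :
    ∃ z, A * (Q z s - Q z u) - B * (Q z s - Q z t) ≠ 0 := by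
  by_contra hc
  push Not at hc
  have e1 := hc s
  have e2 := hc t
  have e3 := hc u
  have s0 : 0 < s.2.2 := hs
  have t0 : 0 < t.2.2 := ht
  have u0 : 0 < u.2.2 := hu
  unfold Q at e1 e2 e3
  rw [d2_self] at e1 e2 e3
  rw [d2_comm t s] at e2
  rw [d2_comm u s, d2_comm u t] at e3
  have p2 := d2_pos h2
  have p3 := d2_pos h3
  set x := d2 s t
  set y := d2 s u
  set w := d2 t u
  have f1 : B * (2 * w / (t.2.2 * u.2.2)) * A = 0 := by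
    have g1 : -A * (y / (s.2.2 * u.2.2)) + B * (x / (s.2.2 * t.2.2)) = 0 := by
      have : -A * (y / (s.2.2 * u.2.2)) + B * (x / (s.2.2 * t.2.2)) =
        (A * (0 / s.2.2 - y / u.2.2) - B * (0 / s.2.2 - x / t.2.2)) / s.2.2 := by
        field_simp; ring
      rw [this, e1, zero_div]
    have g2 : A * (x / (s.2.2 * t.2.2) - w / (t.2.2 * u.2.2)) - B * (x / (s.2.2 * t.2.2)) = 0 := by
      have : A * (x / (s.2.2 * t.2.2) - w / (t.2.2 * u.2.2)) - B * (x / (s.2.2 * t.2.2)) =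
        (A * (x / s.2.2 - w / u.2.2) - B * (x / s.2.2 - 0 / t.2.2)) / t.2.2 := by
        field_simp; ring
      rw [this, e2, zero_div]
    have g3 : A * (y / (s.2.2 * u.2.2)) - B * (y / (s.2.2 * u.2.2) - w / (t.2.2 * u.2.2)) = 0 := by
      have : A * (y / (s.2.2 * u.2.2)) - B * (y / (s.2.2 * u.2.2) - w / (t.2.2 * u.2.2)) =
        (A * (y / s.2.2 - 0 / u.2.2) - B * (y / s.2.2 - w / t.2.2)) / u.2.2 := by
        field_simp; ring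
      rw [this, e3, zero_div]
    rw [mul_div_assoc]
    linear_combination A * g1 + A * g3 - B * g1 - B * g2
  have hB : B = 0 := by
    rcases mul_eq_zero.1 f1 with h | h
    · rcases mul_eq_zero.1 h with h | h
      · exact h
      · exact absurd h (by positivity)
    · exact absurd h hA
  rw [hB] at e1
  have : A * (y / u.2.2) = 0 := by
    rw [zero_div] at e1
    linarith
  rcases mul_eq_zero.1 this with h | h
  · exact hA h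
  · exact absurd h (by positivity)

noncomputable def gam (a b : E) (t : ℝ) : E :=
  ((1 - t) * a.1 + t * b.1, (1 - t) * a.2.1 + t * b.2.1,
    √((1 - t) * a.2.2 ^ 2 + t * b.2.2 ^ 2 + t * (1 - t) * ((a.1 - b.1) ^ 2 + (a.2.1 - b.2.1) ^ 2)))

lemma gam_sq (a b : E) {t : ℝ} (h0 : 0 ≤ t) (h1 : t ≤ 1) : (gam a b t).2.2 ^ 2 =
    (1 - t) * a.2.2 ^ 2 + t * b.2.2 ^ 2 + t * (1 - t) * ((a.1 - b.1) ^ 2 + (a.2.1 - b.2.1) ^ 2) := by
  have : 0 ≤ 1 - t := by linarith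
  exact sq_sqrt (by positivity)

lemma IsQ.gam {f : E → ℝ} (hf : IsQ f) (a b : E) {t : ℝ} (h0 : 0 ≤ t) (h1 : t ≤ 1) :
    f (gam a b t) = (1 - t) * f a + t * f b := by
  obtain ⟨α, β, γ, δ, h⟩ := hf
  rw [h, h, h, gam_sq a b h0 h1]
  simp only [AE.gam]
  ring

lemma gam_zero {a : E} (b : E) (ha : a ∈ Hs) : gam a b 0 = a := by
  have : 0 < a.2.2 := ha
  simp [gam, sqrt_sq this.le]

lemma gam_one (a : E) {b : E} (hb : b ∈ Hs) : gam a b 1 = b := by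
  have : 0 < b.2.2 := hb
  simp [gam, sqrt_sq this.le]

lemma continuous_gam (a b : E) : Continuous (gam a b) := by
  unfold gam; fun_prop

lemma gam_reg {x0 lo hi r : ℝ} (hlo : 0 ≤ lo) {a b : E} (ha1 : |a.1 - x0| ≤ r) (ha2 : |a.2.1| ≤ r)
    (hb1 : |b.1 - x0| ≤ r) (hb2 : |b.2.1| ≤ r) (ha3 : lo ≤ a.2.2) (hb3 : lo ≤ b.2.2)
    (hhi : 0 ≤ hi) (ha4 : a.2.2 ^ 2 + 2 * r ^ 2 ≤ hi ^ 2) (hb4 : b.2.2 ^ 2 + 2 * r ^ 2 ≤ hi ^ 2)
    {t : ℝ} (h0 : 0 ≤ t) (h1 : t ≤ 1) :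
    |(gam a b t).1 - x0| ≤ r ∧ |(gam a b t).2.1| ≤ r ∧ lo ≤ (gam a b t).2.2 ∧
      (gam a b t).2.2 ≤ hi := by
  have h2 : 0 ≤ 1 - t := by linarith
  have hs := gam_sq a b h0 h1
  have hp : 0 ≤ (gam a b t).2.2 := sqrt_nonneg _
  have q1 : (a.1 - b.1) ^ 2 ≤ (2 * r) ^ 2 := by
    rw [abs_le] at ha1 hb1
    exact sq_le_sq' (by linarith) (by linarith)
  have q2 : (a.2.1 - b.2.1) ^ 2 ≤ (2 * r) ^ 2 := by
    rw [abs_le] at ha2 hb2
    exact sq_le_sq' (by linarith) (by linarith)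
  have q3 : t * (1 - t) ≤ 1 / 4 := by nlinarith [sq_nonneg (t - 1 / 2)]
  have q4 : 0 ≤ t * (1 - t) := mul_nonneg h0 h2
  refine ⟨?_, ?_, ?_, ?_⟩
  · change |(1 - t) * a.1 + t * b.1 - x0| ≤ r
    rw [abs_le] at ha1 hb1 ⊢
    constructor <;> nlinarith
  · change |(1 - t) * a.2.1 + t * b.2.1| ≤ r
    rw [abs_le] at ha2 hb2 ⊢
    constructor <;> nlinarith
  · refine abs_le_of_sq_le_sq' ?_ hp |>.2
    rw [hs]
    have e1 : lo ^ 2 ≤ a.2.2 ^ 2 := by gcongr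
    have e2 : lo ^ 2 ≤ b.2.2 ^ 2 := by gcongr
    have e3 : 0 ≤ t * (1 - t) * ((a.1 - b.1) ^ 2 + (a.2.1 - b.2.1) ^ 2) := by positivity
    nlinarith
  · refine abs_le_of_sq_le_sq' ?_ hhi |>.2
    rw [hs]
    have e3 : t * (1 - t) * ((a.1 - b.1) ^ 2 + (a.2.1 - b.2.1) ^ 2) ≤
        1 / 4 * ((2 * r) ^ 2 + (2 * r) ^ 2) := by gcongr
    nlinarith

theorem exists_path {S : Set E} (hS : S ⊆ Hs) (h : LocFin S) {a b : E} (ha : a ∈ Hs)
    (hb : b ∈ Hs) {Oa Ob : Set E} (hOa : Oa ∈ 𝓝 a) (hOb : Ob ∈ 𝓝 b) :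
    ∃ a' ∈ Oa, ∃ b' ∈ Ob, a' ∈ Hs ∧ ∀ u u' : S, a' ∈ cell S u → b' ∈ cell S u' →
      ∃ p : (vorGraph S).Walk u u', ∀ v ∈ p.support, ∃ t : ℝ, 0 ≤ t ∧ t ≤ 1 ∧
        gam a' b' t ∈ cell S v := by
  have hHs : IsOpen Hs := isOpen_lt continuous_const (by fun_prop)
  have : Countable S := (h.countable hS).to_subtype
  obtain ⟨a', ⟨ha1, ha2⟩, ha3⟩ := generic (ι := {x : S × S // x.1 ≠ x.2})
    (fun x z => Q z x.1.1 - Q z x.1.2) (fun x => isQ_sub (hS x.1.1.2) (hS x.1.2.2))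
    (fun x => ⟨x.1.1, by
      unfold Q
      rw [d2_self, zero_div, zero_sub, neg_ne_zero]
      exact (div_pos (d2_pos (fun e => x.2 (Subtype.ext e))) (hS x.1.2.2)).ne'⟩)
    (inter_mem hOa (hHs.mem_nhds ha))
  obtain ⟨b', ⟨hb1, hb2⟩, hb3⟩ := generic
    (ι := {x : S × S × S // x.1 ≠ x.2.1 ∧ x.1 ≠ x.2.2 ∧ x.2.1 ≠ x.2.2})
    (fun x z => (Q a' x.1.1 - Q a' x.1.2.1) * (Q z x.1.1 - Q z x.1.2.2) -
      (Q a' x.1.1 - Q a' x.1.2.2) * (Q z x.1.1 - Q z x.1.2.1))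
    (fun x => (isQ_sub (hS x.1.1.2) (hS x.1.2.2.2)).comb (isQ_sub (hS x.1.1.2) (hS x.1.2.1.2)) _ _)
    (fun x => nondeg (hS x.1.1.2) (hS x.1.2.1.2) (hS x.1.2.2.2) (fun e => x.2.2.1 (Subtype.ext e))
      (fun e => x.2.2.2 (Subtype.ext e)) (ha3 ⟨(x.1.1, x.1.2.1), x.2.1⟩))
    (inter_mem hOb (hHs.mem_nhds hb))
  refine ⟨a', ha1, b', hb1, ha2, fun u u' hu hu' => ?_⟩
  obtain ⟨r1, r11, -, r12, r13, r14, r15⟩ := exists_reg ha2 0
  obtain ⟨r, r0, r01, r2, r3, r4, r5⟩ := exists_reg hb2 r1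
  have a0 : 0 < a'.2.2 := ha2
  have b0 : 0 < b'.2.2 := hb2
  have hreg : ∀ t : ℝ, 0 ≤ t → t ≤ 1 → gam a' b' t ∈ Reg 0 (1 / (2 * r)) (2 * r) := by
    intro t h0 h1
    have e1 : 1 / (2 * r) ≤ 1 / r1 := one_div_le_one_div_of_le (by linarith) (by linarith)
    have e2 : 1 / (2 * r) ≤ 1 / r := one_div_le_one_div_of_le (by linarith) (by linarith)
    obtain ⟨g1, g2, g3, g4⟩ := gam_reg (x0 := 0) (lo := 1 / (2 * r)) (hi := 2 * r) (r := r)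
      (by positivity) (a := a') (b := b') (by linarith) (by linarith) r2.le r3.le (by linarith)
      (by linarith) (by linarith) (by nlinarith) (by nlinarith) h0 h1
    exact ⟨by linarith, by linarith, g3, g4⟩
  have hgH : ∀ t : ℝ, 0 ≤ t → t ≤ 1 → gam a' b' t ∈ Hs := fun t h0 h1 =>
    lt_of_lt_of_le (by positivity) (hreg t h0 h1).2.2.1
  let U : Set S := {v | ∃ t : ℝ, 0 ≤ t ∧ t ≤ 1 ∧ gam a' b' t ∈ cell S v}
  have hU : U.Finite := by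
    refine ((h.meets hS (b := 2 * r) (by linarith)).preimage
      (Subtype.val_injective (p := (· ∈ S))).injOn).subset ?_
    rintro v ⟨t, h0, h1, hv⟩
    exact ⟨v.2, _, hreg t h0 h1, hv⟩
  let R : S → Prop := fun v => ∃ p : (vorGraph S).Walk u v, ∀ w ∈ p.support, w ∈ U
  let C : S → Set ℝ := fun v => {t | ∀ q ∈ S, Q (gam a' b' t) v ≤ Q (gam a' b' t) q}
  have hC : ∀ v, IsClosed (C v) := by
    intro v
    have : C v = ⋂ q ∈ S, {t | Q (gam a' b' t) v ≤ Q (gam a' b' t) q} := by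
      ext t; simp [C]
    rw [this]
    exact isClosed_biInter fun q _ => isClosed_le ((continuous_Q _).comp (continuous_gam _ _))
      ((continuous_Q _).comp (continuous_gam _ _))
  have hCm : ∀ v : S, ∀ t : ℝ, 0 ≤ t → t ≤ 1 → (gam a' b' t ∈ cell S v ↔ t ∈ C v) := by
    intro v t h0 h1
    rw [mem_cell hS (hS v.2)]
    exact ⟨fun h => h.2, fun h => ⟨hgH t h0 h1, h⟩⟩
  have huU : u ∈ U := ⟨0, le_rfl, zero_le_one, by rwa [gam_zero _ ha2]⟩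
  have hu'U : u' ∈ U := ⟨1, zero_le_one, le_rfl, by rwa [gam_one _ hb2]⟩
  by_contra hc
  have hc' : ¬ R u' := hc
  have key := isPreconnected_closed_iff.1 (isPreconnected_Icc (a := (0 : ℝ)) (b := 1))
    (⋃ v ∈ {v ∈ U | R v}, C v) (⋃ v ∈ {v ∈ U | ¬ R v}, C v)
    ((hU.subset fun v hv => hv.1).isClosed_biUnion fun v _ => hC v)
    ((hU.subset fun v hv => hv.1).isClosed_biUnion fun v _ => hC v)
    (by
      rintro t ⟨h0, h1⟩
      obtain ⟨v, hv, hz⟩ := h.cover hS ⟨u, u.2⟩ (hgH t h0 h1)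
      have hvU : (⟨v, hv⟩ : S) ∈ U := ⟨t, h0, h1, hz⟩
      by_cases hr : R ⟨v, hv⟩
      · exact Or.inl (Set.mem_biUnion (x := (⟨v, hv⟩ : S)) ⟨hvU, hr⟩ ((hCm ⟨v, hv⟩ t h0 h1).1 hz))
      · exact Or.inr (Set.mem_biUnion (x := (⟨v, hv⟩ : S)) ⟨hvU, hr⟩ ((hCm ⟨v, hv⟩ t h0 h1).1 hz)))
    ⟨0, ⟨le_rfl, zero_le_one⟩, Set.mem_biUnion (x := u) ⟨huU, SimpleGraph.Walk.nil, by simpa using huU⟩
      ((hCm u 0 le_rfl zero_le_one).1 (by rwa [gam_zero _ ha2]))⟩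
    ⟨1, ⟨zero_le_one, le_rfl⟩, Set.mem_biUnion (x := u') ⟨hu'U, hc'⟩
      ((hCm u' 1 zero_le_one le_rfl).1 (by rwa [gam_one _ hb2]))⟩
  obtain ⟨t, ⟨h0, h1⟩, ht1, ht2⟩ := key
  obtain ⟨v, ⟨-, p, hp⟩, hv⟩ := Set.mem_iUnion₂.1 ht1
  obtain ⟨v', ⟨hv'U, hv'R⟩, hv'⟩ := Set.mem_iUnion₂.1 ht2
  have hne : v ≠ v' := fun e => hv'R (e ▸ ⟨p, hp⟩)
  have heq : Q (gam a' b' t) v = Q (gam a' b' t) v' := le_antisymm (hv v' v'.2) (hv' v v.2)
  have hadj : (vorGraph S).Adj v v' := by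
    refine adj_of_strict hS h hne (hgH t h0 h1) heq fun s hs hs1 hs2 => ?_
    refine lt_of_le_of_ne (hv s hs) fun e => ?_
    refine hb3 ⟨(v, v', ⟨s, hs⟩), hne, fun e => hs1 (congrArg Subtype.val e).symm,
      fun e => hs2 (congrArg Subtype.val e).symm⟩ ?_
    have f1 := (isQ_sub (hS v.2) (hS v'.2)).gam a' b' h0 h1
    have f2 := (isQ_sub (hS v.2) (hS hs)).gam a' b' h0 h1
    simp only at f1 f2 ⊢
    rw [heq, sub_self] at f1
    rw [e, sub_self] at f2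
    linear_combination
      (-(Q a' v - Q a' v') + (Q b' v - Q b' v')) * f2 + ((Q a' v - Q a' s) - (Q b' v - Q b' s)) * f1
  refine hv'R ⟨p.concat hadj, fun w hw => ?_⟩
  rw [SimpleGraph.Walk.support_concat] at hw
  simp only [List.concat_eq_append, List.mem_append, List.mem_singleton] at hw
  rcases hw with hw | rfl
  · exact hp w hw
  · exact hv'U

end Pool.Agent.H78Z.AE
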