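import Pool.Agent.H78Z.AE.B

namespace Pool.Agent.H78Z.AE

open Real Filter Topology

def Bx (x0 η w : ℝ) (p q : ℤ) : Set E :=
  {z | (x0 + p * w ≤ z.1 ∧ z.1 ≤ x0 + p * w + w) ∧ (q * w ≤ z.2.1 ∧ z.2.1 ≤ q * w + w) ∧
    (η ≤ z.2.2 ∧ z.2.2 ≤ 2 * η)}

def Full (S : Set E) (x0 η w : ℝ) (M : ℕ) : Prop :=
  ∀ p q : ℤ, |p| ≤ M → |q| ≤ M → (S ∩ Bx x0 η w p q).Nonempty

lemma floor_bd {x w : ℝ} {M : ℕ} (hw : 0 < w) (h : |x| ≤ M * w) :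
    ∃ p : ℤ, |p| ≤ M ∧ p * w ≤ x ∧ x ≤ p * w + w := by
  rw [abs_le] at h
  have h1 := Int.floor_le (x / w)
  have h2 := Int.lt_floor_add_one (x / w)
  refine ⟨⌊x / w⌋, abs_le.2 ⟨?_, ?_⟩, ?_, ?_⟩
  · rw [Int.le_floor, le_div_iff₀ hw]; push_cast; linarith
  · have : x / w ≤ M := by rw [div_le_iff₀ hw]; linarith
    have h3 : ((⌊x / w⌋ : ℤ) : ℝ) ≤ M := h1.trans this
    exact_mod_cast h3
  · rwa [le_div_iff₀ hw] at h1
  · rw [div_lt_iff₀ hw] at h2; linarith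

lemma slab {S : Set E} {x0 η w ρ : ℝ} {M : ℕ} (hF : Full S x0 η w M) (hw : 0 < w) {c : E}
    (h1 : |c.1 - x0| ≤ M * w) (h2 : |c.2.1| ≤ M * w) (h3 : c.2.2 - ρ ≤ η / 2) (h4 : 0 < η)
    (h5 : 2 * η ≤ c.2.2) (hρ : 0 ≤ ρ) (h6 : 4 * w ^ 2 < η * ρ) : ∃ s ∈ S, d2 s c < ρ ^ 2 := by
  obtain ⟨p, hp, p1, p2⟩ := floor_bd hw h1
  obtain ⟨q, hq, q1, q2⟩ := floor_bd hw h2
  obtain ⟨s, hs, ⟨s1, s2⟩, ⟨s3, s4⟩, s5, s6⟩ := hF p q hp hq
  refine ⟨s, hs, ?_⟩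
  have a1 : (s.1 - c.1) ^ 2 ≤ w ^ 2 := sq_le_sq' (by linarith) (by linarith)
  have a2 : (s.2.1 - c.2.1) ^ 2 ≤ w ^ 2 := sq_le_sq' (by linarith) (by linarith)
  have a3 : (s.2.2 - c.2.2) ^ 2 ≤ (c.2.2 - η) ^ 2 := sq_le_sq' (by linarith) (by linarith)
  have a4 : η / 2 * ρ ≤ (ρ - c.2.2 + η) * (ρ + (c.2.2 - η)) :=
    mul_le_mul (by linarith) (by linarith) hρ (by linarith)
  unfold d2
  nlinarith

lemma shrink {s u c : E} {θ ρ : ℝ} (h0 : 0 < θ) (h1 : θ ≤ 1) (hu : d2 u c ≤ ρ ^ 2)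
    (hs : d2 s (u.1 + θ * (c.1 - u.1), u.2.1 + θ * (c.2.1 - u.2.1), u.2.2 + θ * (c.2.2 - u.2.2))
      < (θ * ρ) ^ 2) : d2 s c < ρ ^ 2 := by
  set c' : E := (u.1 + θ * (c.1 - u.1), u.2.1 + θ * (c.2.1 - u.2.1), u.2.2 + θ * (c.2.2 - u.2.2))
  have key : θ * d2 s c + (1 - θ) * ((s.1 - c'.1 - θ * (u.1 - c.1)) ^ 2 +
      (s.2.1 - c'.2.1 - θ * (u.2.1 - c.2.1)) ^ 2 + (s.2.2 - c'.2.2 - θ * (u.2.2 - c.2.2)) ^ 2) =
      d2 s c' + θ * (1 - θ) * d2 u c := by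
    simp only [d2, c']; ring
  have h2 : 0 ≤ 1 - θ := by linarith
  have h3 : 0 ≤ (1 - θ) * ((s.1 - c'.1 - θ * (u.1 - c.1)) ^ 2 +
      (s.2.1 - c'.2.1 - θ * (u.2.1 - c.2.1)) ^ 2 + (s.2.2 - c'.2.2 - θ * (u.2.2 - c.2.2)) ^ 2) := by
    positivity
  have h4 : θ * (1 - θ) * d2 u c ≤ θ * (1 - θ) * ρ ^ 2 := by gcongr
  have h5 : θ * d2 s c < θ * ρ ^ 2 := by nlinarith
  exact lt_of_mul_lt_mul_left h5 h0.le

lemma coord_le {u c : E} {ρ : ℝ} (hρ : 0 ≤ ρ) (h : d2 u c ≤ ρ ^ 2) :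
    |u.1 - c.1| ≤ ρ ∧ |u.2.1 - c.2.1| ≤ ρ ∧ |u.2.2 - c.2.2| ≤ ρ := by
  unfold d2 at h
  refine ⟨abs_le_of_sq_le_sq ?_ hρ, abs_le_of_sq_le_sq ?_ hρ, abs_le_of_sq_le_sq ?_ hρ⟩ <;>
    nlinarith [sq_nonneg (u.1 - c.1), sq_nonneg (u.2.1 - c.2.1), sq_nonneg (u.2.2 - c.2.2)]

def Conf (S : Set E) (x0 lo hi n : ℝ) (M : ℕ) : Prop :=
  Full S x0 (2 * hi) (2 * hi * n / 2) M ∧ Full S x0 (lo / (32 * n ^ 2)) (lo / (32 * n ^ 2) * n / 2) M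

theorem confine {S : Set E} {x0 lo hi n : ℝ} {M : ℕ} (hC : Conf S x0 lo hi n M) (hlo : 0 < lo)
    (hn : 1 ≤ n) (hM : 320 * n ^ 3 * hi ≤ M * lo) {c u v : E} {ρ : ℝ} (hB : EB S c ρ)
    (hu : d2 u c ≤ ρ ^ 2) (hv : d2 v c ≤ ρ ^ 2) (hR : u ∈ Reg x0 lo hi) :
    v ∈ Reg x0 (lo / (64 * n ^ 2)) (64 * n ^ 2 * hi) := by
  obtain ⟨hρ, hc, hE⟩ := hB
  obtain ⟨u1, u2, u3, u4⟩ := hR
  obtain ⟨a1, a2, a3⟩ := coord_le hρ hu
  obtain ⟨b1, b2, b3⟩ := coord_le hρ hv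
  have hhi : 0 < hi := by linarith
  have hn0 : 0 < n := by linarith
  have hn2 : 1 ≤ n ^ 2 := one_le_pow₀ hn
  have hn3 : n ≤ n ^ 2 := by nlinarith
  have hh2 : hi ≤ hi * n ^ 2 := by nlinarith
  have hM0 : (0 : ℝ) ≤ M := by positivity
  have hM1 : 5 * n ≤ M := by
    have e1 : M * lo ≤ M * hi := by gcongr; linarith
    have e2 : 320 * n ^ 3 ≤ M := le_of_mul_le_mul_right (hM.trans e1) hhi
    nlinarith
  rw [abs_le] at u1 u2 a1 a2 a3 b1 b2 b3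
  have hρm : ρ ≤ 4 * (hi * n ^ 2) := by
    by_contra hlt
    push Not at hlt
    have hρ0 : 0 < ρ := lt_trans (by positivity) hlt
    set θ := 4 * (hi * n ^ 2) / ρ with hθ
    have t0 : 0 < θ := by positivity
    have t1 : θ ≤ 1 := by rw [hθ, div_le_one hρ0]; exact hlt.le
    have t2 : θ * ρ = 4 * (hi * n ^ 2) := by rw [hθ]; field_simp
    have t3 : 5 * (hi * n ^ 2) ≤ M * (2 * hi * n / 2) := by nlinarith [mul_pos hhi hn0]
    have m1 : |θ * (c.1 - u.1)| ≤ θ * ρ := by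
      rw [abs_mul, abs_of_pos t0]; gcongr; exact abs_le.2 ⟨by linarith, by linarith⟩
    have m2 : |θ * (c.2.1 - u.2.1)| ≤ θ * ρ := by
      rw [abs_mul, abs_of_pos t0]; gcongr; exact abs_le.2 ⟨by linarith, by linarith⟩
    rw [abs_le] at m1 m2
    have m3 : θ * (c.2.2 - ρ - u.2.2) ≤ 0 := mul_nonpos_of_nonneg_of_nonpos t0.le (by linarith)
    have m4 : 0 ≤ (1 - θ) * u.2.2 := mul_nonneg (by linarith) (by linarith)
    have m5 : 0 ≤ θ * (c.2.2 - ρ) := mul_nonneg t0.le (by linarith)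
    obtain ⟨s, hs, hlt2⟩ := slab (ρ := θ * ρ) hC.1 (by positivity)
      (c := (u.1 + θ * (c.1 - u.1), u.2.1 + θ * (c.2.1 - u.2.1), u.2.2 + θ * (c.2.2 - u.2.2)))
      (abs_le.2 ⟨by dsimp only; linarith, by dsimp only; linarith⟩)
      (abs_le.2 ⟨by dsimp only; linarith, by dsimp only; linarith⟩)
      (by dsimp only; linarith) (by positivity) (by dsimp only; linarith) (by positivity)
      (by rw [t2]; nlinarith [mul_pos (mul_pos hhi hhi) (mul_pos hn0 hn0)])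
    exact absurd (shrink t0 t1 hu hlt2) (not_lt.2 (hE s hs))
  have hβ : lo / (64 * n ^ 2) ≤ c.2.2 - ρ := by
    by_contra hlt
    push Not at hlt
    set η := lo / (32 * n ^ 2) with hη
    have e0 : 0 < η := by positivity
    have e1 : η * (32 * n ^ 2) = lo := by rw [hη]; field_simp
    have e2 : lo / (64 * n ^ 2) = η / 2 := by rw [hη]; field_simp; ring
    rw [e2] at hlt
    have e3 : 32 * η ≤ lo := by nlinarith
    have e4 : lo / 4 ≤ ρ := by linarith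
    have e5 : 5 * (hi * n ^ 2) ≤ M * (η * n / 2) := by
      refine le_of_mul_le_mul_right ?_ (show 0 < 64 * n by positivity)
      calc 5 * (hi * n ^ 2) * (64 * n) = 320 * n ^ 3 * hi := by ring
        _ ≤ M * lo := hM
        _ = M * (η * n / 2) * (64 * n) := by rw [← e1]; ring
    obtain ⟨s, hs, hlt2⟩ := slab (ρ := ρ) hC.2 (by positivity) (c := c)
      (abs_le.2 ⟨by linarith, by linarith⟩) (abs_le.2 ⟨by linarith, by linarith⟩)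
      hlt.le e0 (by linarith) hρ (by
        have : η * (lo / 4) ≤ η * ρ := by gcongr
        have h7 : 0 < η * (η * n ^ 2) := by positivity
        rw [← e1] at this
        nlinarith)
    exact absurd hlt2 (not_lt.2 (hE s hs))
  have hh3 : 0 < hi * n ^ 2 := by positivity
  refine ⟨abs_le.2 ⟨by linarith, by linarith⟩, abs_le.2 ⟨by linarith, by linarith⟩, by linarith,
    by linarith⟩

def obox (cx cy cz r : ℝ) : Set E := {z | |z.1 - cx| < r ∧ |z.2.1 - cy| < r ∧ |z.2.2 - cz| < r}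

lemma sep1 {σ δ D g e : ℝ} (hσ : 0 < σ) (hδ0 : 0 ≤ δ) (hδ : 4 * δ ≤ σ) (hD : σ ≤ |D|)
    (hg : |g| < δ) (he : |e| < δ) : σ ^ 2 / 2 ≤ (D + g) ^ 2 - e ^ 2 := by
  have h1 : σ - δ ≤ |D + g| := by
    have := abs_add_le (D + g) (-g)
    rw [add_neg_cancel_right, abs_neg] at this
    linarith
  have h2 : (σ - δ) ^ 2 ≤ (D + g) ^ 2 := by
    rw [← sq_abs (D + g)]; gcongr; linarith
  have h3 : e ^ 2 ≤ δ ^ 2 := by rw [← sq_abs e]; gcongr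
  nlinarith

lemma sep2 {δ B g e y : ℝ} (hg : |g| < δ) (he : |e| < δ) (hB : |y| ≤ B) :
    -(4 * δ * (B + δ)) ≤ (g - y) ^ 2 - (e - y) ^ 2 := by
  have h1 : (g - y) ^ 2 - (e - y) ^ 2 = (g - e) * (g + e - 2 * y) := by ring
  have h2 : |(g - e) * (g + e - 2 * y)| ≤ (2 * δ) * (2 * (B + δ)) := by
    rw [abs_mul]
    rw [abs_lt] at hg he
    rw [abs_le] at hB
    exact mul_le_mul (abs_le.2 ⟨by linarith, by linarith⟩) (abs_le.2 ⟨by linarith, by linarith⟩)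
      (abs_nonneg _) (by linarith)
  rw [h1]
  linarith [(abs_le.1 h2).1]

lemma cluster_norm {σ δ a b : ℝ} (hσ : 0 < σ) (hσ1 : σ ≤ 1 / 20) (hδ : δ = σ ^ 2 / 10)
    (ha : |a| ≤ 1 / 20) (hb : |b| ≤ 1 / 20) {p q : E} (hp : p ∈ obox a 0 (-(1 / 10)) δ)
    (hq : q ∈ obox 0 b (1 / 10) δ) :
    ∃ κ : ℝ, |κ| ≤ 1 / 20 ∧ d2 p (a, b, κ) = d2 q (a, b, κ) ∧ d2 p (a, b, κ) ≤ 1 / 10 ∧
      ∀ r : E, ((∃ a', σ ≤ |a' - a| ∧ r ∈ obox a' 0 (-(1 / 10)) δ) ∨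
        (∃ b', σ ≤ |b' - b| ∧ r ∈ obox 0 b' (1 / 10) δ) ∨ r ∉ obox 0 0 0 (1 / 2)) →
        d2 p (a, b, κ) < d2 r (a, b, κ) := by
  have d0 : 0 < δ := by rw [hδ]; positivity
  have d1 : δ ≤ 1 / 4000 := by rw [hδ]; nlinarith
  have d3 : 4 * δ ≤ σ := by rw [hδ]; nlinarith
  obtain ⟨p1, p2, p3⟩ := hp
  obtain ⟨q1, q2, q3⟩ := hq
  have p1' := abs_lt.1 p1
  have p2' := abs_lt.1 p2
  have p3' := abs_lt.1 p3
  have q1' := abs_lt.1 q1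
  have q2' := abs_lt.1 q2
  have q3' := abs_lt.1 q3
  have ha' := abs_le.1 ha
  have hb' := abs_le.1 hb
  have hD : 1 / 3 ≤ 2 * (q.2.2 - p.2.2) := by linarith
  set N := (q.1 - a) ^ 2 + (q.2.1 - b) ^ 2 + q.2.2 ^ 2 - (p.1 - a) ^ 2 - (p.2.1 - b) ^ 2 -
    p.2.2 ^ 2 with hN
  have n1 : (q.1 - a) ^ 2 ≤ (6 / 100) ^ 2 := sq_le_sq' (by linarith) (by linarith)
  have n2 : (q.2.1 - b) ^ 2 ≤ (1 / 100) ^ 2 := sq_le_sq' (by linarith) (by linarith)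
  have n3 : (p.1 - a) ^ 2 ≤ (1 / 100) ^ 2 := sq_le_sq' (by linarith) (by linarith)
  have n4 : (p.2.1 - b) ^ 2 ≤ (6 / 100) ^ 2 := sq_le_sq' (by linarith) (by linarith)
  have n5 : |q.2.2 ^ 2 - p.2.2 ^ 2| ≤ 1 / 1000 := by
    rw [show q.2.2 ^ 2 - p.2.2 ^ 2 = (q.2.2 + p.2.2) * (q.2.2 - p.2.2) by ring, abs_mul]
    calc _ ≤ (1 / 1000 : ℝ) * 1 := mul_le_mul (abs_le.2 ⟨by linarith, by linarith⟩)
          (abs_le.2 ⟨by linarith, by linarith⟩) (abs_nonneg _) (by norm_num)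
      _ = _ := by norm_num
  have n6 : |N| ≤ 1 / 60 := by
    rw [abs_le] at n5 ⊢
    constructor <;> nlinarith [sq_nonneg (q.1 - a), sq_nonneg (q.2.1 - b), sq_nonneg (p.1 - a),
      sq_nonneg (p.2.1 - b)]
  have hκ : |N / (2 * (q.2.2 - p.2.2))| ≤ 1 / 20 := by
    rw [abs_div, abs_of_pos (by linarith : 0 < 2 * (q.2.2 - p.2.2)), div_le_iff₀ (by linarith)]
    linarith
  set κ := N / (2 * (q.2.2 - p.2.2)) with hκd
  have hκe : κ * (2 * (q.2.2 - p.2.2)) = N := div_mul_cancel₀ _ (by linarith)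
  have hκ' := abs_le.1 hκ
  have heq : d2 p (a, b, κ) = d2 q (a, b, κ) := by
    simp only [d2]; linear_combination hκe - hN
  have hT : d2 p (a, b, κ) ≤ 1 / 10 := by
    have n7 : (p.2.2 - κ) ^ 2 ≤ (2 / 10) ^ 2 := sq_le_sq' (by linarith) (by linarith)
    simp only [d2]; nlinarith
  refine ⟨κ, hκ, heq, hT, ?_⟩
  rintro r (⟨a', h1, r1, r2, r3⟩ | ⟨b', h1, r1, r2, r3⟩ | h)
  · have e1 := sep1 hσ d0.le d3 h1 r1 p1
    have e2 := sep2 r2 p2 hb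
    have e3 := sep2 (y := κ + 1 / 10) (B := 3 / 20) r3 p3 (abs_le.2 ⟨by linarith, by linarith⟩)
    simp only [d2]
    nlinarith
  · rw [heq]
    have e1 := sep1 hσ d0.le d3 h1 r2 q2
    have e2 := sep2 r1 q1 ha
    have e3 := sep2 (y := κ - 1 / 10) (B := 3 / 20) r3 q3 (abs_le.2 ⟨by linarith, by linarith⟩)
    simp only [d2]
    nlinarith
  · refine lt_of_le_of_lt hT ?_
    by_contra hc
    push Not at hc
    obtain ⟨c1, c2, c3⟩ := coord_le (ρ := 1 / 3) (by norm_num) (hc.trans (by norm_num))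
    rw [abs_le] at c1 c2 c3
    dsimp only at c1 c2 c3
    exact h ⟨abs_lt.2 ⟨by linarith, by linarith⟩, abs_lt.2 ⟨by linarith, by linarith⟩,
      abs_lt.2 ⟨by linarith, by linarith⟩⟩

noncomputable def Nm (x0 s : ℝ) (z : E) : E := ((z.1 - x0) / s, z.2.1 / s, z.2.2 / s - 3 / 2)

def sbox (x0 s a b c r : ℝ) : Set E := obox (x0 + a * s) (b * s) ((3 / 2 + c) * s) (r * s)

lemma mem_sbox {x0 s a b c r : ℝ} (hs : 0 < s) {z : E} :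
    z ∈ sbox x0 s a b c r ↔ Nm x0 s z ∈ obox a b c r := by
  have e1 : z.1 - (x0 + a * s) = ((z.1 - x0) / s - a) * s := by field_simp; ring
  have e2 : z.2.1 - b * s = (z.2.1 / s - b) * s := by field_simp
  have e3 : z.2.2 - (3 / 2 + c) * s = (z.2.2 / s - 3 / 2 - c) * s := by field_simp; ring
  simp only [sbox, obox, Nm, Set.mem_setOf_eq]
  rw [e1, e2, e3, abs_mul, abs_mul, abs_mul, abs_of_pos hs, mul_lt_mul_iff_left₀ hs,
    mul_lt_mul_iff_left₀ hs, mul_lt_mul_iff_left₀ hs]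

lemma d2_Nm {x0 s : ℝ} (hs : 0 < s) (z : E) (a b κ : ℝ) :
    d2 z (x0 + a * s, b * s, (3 / 2 + κ) * s) = s ^ 2 * d2 (Nm x0 s z) (a, b, κ) := by
  simp only [d2, Nm]
  field_simp
  ring

noncomputable def sg (m : ℕ) : ℝ := 1 / (20 * m)
noncomputable def dl (m : ℕ) : ℝ := sg m ^ 2 / 10

def UU (x0 s : ℝ) : Set E := sbox x0 s 0 0 0 (1 / 2)
def TP (x0 s : ℝ) (m i : ℕ) : Set E := sbox x0 s (i * sg m) 0 (-(1 / 10)) (dl m)
def TQ (x0 s : ℝ) (m i : ℕ) : Set E := sbox x0 s 0 (i * sg m) (1 / 10) (dl m)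

def Cluster (S : Set E) (x0 s : ℝ) (m : ℕ) : Prop :=
  (∀ i < m, ∃ p, S ∩ TP x0 s m i = {p}) ∧ (∀ i < m, ∃ p, S ∩ TQ x0 s m i = {p}) ∧
    ∀ r ∈ S, r ∈ UU x0 s → (∃ i < m, r ∈ TP x0 s m i) ∨ ∃ i < m, r ∈ TQ x0 s m i

lemma sg_pos {m : ℕ} (hm : 0 < m) : 0 < sg m := by unfold sg; positivity

lemma sg_le {m : ℕ} (hm : 0 < m) : sg m ≤ 1 / 20 := by
  have : (1 : ℝ) ≤ m := by exact_mod_cast hm
  exact one_div_le_one_div_of_le (by norm_num) (by linarith)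

lemma dl_pos {m : ℕ} (hm : 0 < m) : 0 < dl m := by have := sg_pos hm; unfold dl; positivity

lemma dl_le {m : ℕ} (hm : 0 < m) : 4 * dl m ≤ sg m := by
  have h1 := sg_pos hm
  have h2 := sg_le hm
  unfold dl; nlinarith

lemma mul_sg_le {m i : ℕ} (hi : i < m) : |i * sg m| ≤ 1 / 20 := by
  have hm : 0 < m := by omega
  have h1 := sg_pos hm
  have h2 : (i : ℝ) ≤ m := by exact_mod_cast hi.le
  have h3 : (0 : ℝ) < m := by exact_mod_cast hm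
  rw [abs_of_nonneg (by positivity)]
  calc i * sg m ≤ m * sg m := by gcongr
    _ = 1 / 20 := by unfold sg; field_simp

lemma sg_sep {m i j : ℕ} (hm : 0 < m) (h : i ≠ j) : sg m ≤ |i * sg m - j * sg m| := by
  have h1 := sg_pos hm
  rw [← sub_mul, abs_mul, abs_of_pos h1]
  have : (1 : ℝ) ≤ |(i : ℝ) - j| := by
    have : (1 : ℤ) ≤ |(i : ℤ) - j| := Int.one_le_abs (by omega)
    exact_mod_cast this
  nlinarith

lemma TP_sub {x0 s : ℝ} (hs : 0 < s) {m i : ℕ} (hi : i < m) : TP x0 s m i ⊆ UU x0 s := by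
  intro z hz
  have h1 := abs_le.1 (mul_sg_le hi)
  have h2 := dl_le (show 0 < m by omega)
  have h3 := sg_le (show 0 < m by omega)
  obtain ⟨a, b, c⟩ := (mem_sbox hs).1 hz
  rw [abs_lt] at a b c
  exact (mem_sbox hs).2 ⟨abs_lt.2 ⟨by linarith, by linarith⟩, abs_lt.2 ⟨by linarith, by linarith⟩,
    abs_lt.2 ⟨by linarith, by linarith⟩⟩

lemma TQ_sub {x0 s : ℝ} (hs : 0 < s) {m i : ℕ} (hi : i < m) : TQ x0 s m i ⊆ UU x0 s := by
  intro z hz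
  have h1 := abs_le.1 (mul_sg_le hi)
  have h2 := dl_le (show 0 < m by omega)
  have h3 := sg_le (show 0 < m by omega)
  obtain ⟨a, b, c⟩ := (mem_sbox hs).1 hz
  rw [abs_lt] at a b c
  exact (mem_sbox hs).2 ⟨abs_lt.2 ⟨by linarith, by linarith⟩, abs_lt.2 ⟨by linarith, by linarith⟩,
    abs_lt.2 ⟨by linarith, by linarith⟩⟩

lemma TP_disj {x0 s : ℝ} (hs : 0 < s) {m i j : ℕ} (hm : 0 < m) {z : E} (h1 : z ∈ TP x0 s m i)
    (h2 : z ∈ TP x0 s m j) : i = j := by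
  by_contra hne
  have e1 := sg_sep hm hne
  have e2 := dl_le hm
  have e3 := dl_pos hm
  have a := ((mem_sbox hs).1 h1).1
  have b := ((mem_sbox hs).1 h2).1
  have := abs_sub_le (i * sg m) (Nm x0 s z).1 (j * sg m)
  rw [abs_sub_comm] at a
  linarith

lemma TQ_disj {x0 s : ℝ} (hs : 0 < s) {m i j : ℕ} (hm : 0 < m) {z : E} (h1 : z ∈ TQ x0 s m i)
    (h2 : z ∈ TQ x0 s m j) : i = j := by
  by_contra hne
  have e1 := sg_sep hm hne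
  have e2 := dl_le hm
  have e3 := dl_pos hm
  have a := ((mem_sbox hs).1 h1).2.1
  have b := ((mem_sbox hs).1 h2).2.1
  have := abs_sub_le (i * sg m) (Nm x0 s z).2.1 (j * sg m)
  rw [abs_sub_comm] at a
  linarith

lemma TPQ_disj {x0 s : ℝ} (hs : 0 < s) {m i j : ℕ} (hm : 0 < m) {z : E} (h1 : z ∈ TP x0 s m i)
    (h2 : z ∈ TQ x0 s m j) : False := by
  have e2 := dl_le hm
  have e3 := sg_le hm
  have a := abs_lt.1 ((mem_sbox hs).1 h1).2.2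
  have b := abs_lt.1 ((mem_sbox hs).1 h2).2.2
  linarith

theorem Cluster.adj {S : Set E} (hS : S ⊆ Hs) (h : LocFin S) {x0 s : ℝ} (hs : 0 < s) {m : ℕ}
    (hC : Cluster S x0 s m) {i j : ℕ} (hi : i < m) (hj : j < m) {u v : S}
    (hu : u.1 ∈ TP x0 s m i) (hv : v.1 ∈ TQ x0 s m j) : (vorGraph S).Adj u v := by
  have hm : 0 < m := by omega
  obtain ⟨κ, k1, k2, k3, k4⟩ := cluster_norm (sg_pos hm) (sg_le hm) (rfl : dl m = _)
    (mul_sg_le hi) (mul_sg_le hj) ((mem_sbox hs).1 hu) ((mem_sbox hs).1 hv)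
  have hs2 : 0 < s ^ 2 := by positivity
  refine adj_of_ball hS h (fun e => TPQ_disj hs hm hu (e ▸ hv))
    (c := (x0 + i * sg m * s, j * sg m * s, (3 / 2 + κ) * s)) ?_ ?_ ?_
  · rw [d2_Nm hs]
    dsimp only
    rw [mul_pow, mul_comm]
    refine mul_lt_mul_of_pos_right (lt_of_le_of_lt k3 ?_) hs2
    rw [abs_le] at k1
    nlinarith
  · rw [d2_Nm hs, d2_Nm hs, k2]
  · intro r hr h1 h2
    rw [d2_Nm hs, d2_Nm hs]
    refine mul_lt_mul_of_pos_left (k4 _ ?_) hs2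
    by_cases hU : r ∈ UU x0 s
    · rcases hC.2.2 r hr hU with ⟨i', hi', h3⟩ | ⟨j', hj', h3⟩
      · refine Or.inl ⟨i' * sg m, sg_sep hm ?_, (mem_sbox hs).1 h3⟩
        rintro rfl
        obtain ⟨p, hp⟩ := hC.1 i' hi'
        exact h1 ((hp.le ⟨hr, h3⟩).trans (hp.le ⟨u.2, hu⟩).symm)
      · refine Or.inr (Or.inl ⟨j' * sg m, sg_sep hm ?_, (mem_sbox hs).1 h3⟩)
        rintro rfl
        obtain ⟨p, hp⟩ := hC.2.1 j' hj'
        exact h2 ((hp.le ⟨hr, h3⟩).trans (hp.le ⟨v.2, hv⟩).symm)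
    · exact Or.inr (Or.inr fun e => hU ((mem_sbox hs).2 e))

end Pool.Agent.H78Z.AE
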