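import Pool.Agent.H78Z.AE.C

namespace Pool.Agent.H78Z.AE

open Real Filter Topology SimpleGraph

lemma bdry_le {V : Type} (G : SimpleGraph V) (hdeg : ∀ v, (G.neighborSet v).Finite)
    (T : Finset V) : bdry G T ≤ ∑ u ∈ T, {v | G.Adj u v ∧ v ∉ T}.ncard := by
  unfold bdry
  have hfin : ∀ u, {v | G.Adj u v ∧ v ∉ T}.Finite := fun u => (hdeg u).subset fun v hv => hv.1
  calc _ ≤ (⋃ u ∈ T, (fun v => s(u, v)) '' {v | G.Adj u v ∧ v ∉ T}).ncard := by
        refine Set.ncard_le_ncard ?_ (T.finite_toSet.biUnion fun u _ => (hfin u).image _)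
        rintro e ⟨he, u, hu, v, hv, rfl⟩
        exact Set.mem_biUnion hu ⟨v, ⟨he, hv⟩, rfl⟩
    _ ≤ _ := (T.set_ncard_biUnion_le _).trans
        (Finset.sum_le_sum fun u _ => Set.ncard_image_le (hfin u))

def RW {V : Type} (G : SimpleGraph V) (ρ : V) (T : Finset V) (v : V) : Prop :=
  ∃ p : G.Walk ρ v, ∀ w ∈ p.support, w ∈ T

lemma RW.step {V : Type} {G : SimpleGraph V} {ρ : V} {T : Finset V} {u v : V} (h : RW G ρ T u)
    (huv : G.Adj u v) (hv : v ∈ T) : RW G ρ T v := by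
  obtain ⟨p, hp⟩ := h
  refine ⟨p.concat huv, fun w hw => ?_⟩
  rw [Walk.support_concat] at hw
  simp only [List.mem_append, List.mem_singleton] at hw
  rcases hw with hw | rfl
  · exact hp w hw
  · exact hv

lemma RW.walk {V : Type} {G : SimpleGraph V} {ρ : V} {T : Finset V} {u v : V} (h : RW G ρ T u)
    (q : G.Walk u v) (hq : ∀ w ∈ q.support, w ∈ T) : ∀ w ∈ q.support, RW G ρ T w := by
  induction q with
  | nil => intro w hw; simp at hw; rw [hw]; exact h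
  | @cons a b c hab q ih =>
    intro w hw
    rw [Walk.support_cons, List.mem_cons] at hw
    rcases hw with rfl | hw
    · exact h
    · refine ih (h.step hab (hq b (by simp))) (fun w hw => hq w (by simp [hw])) w hw

lemma connected_of_RW {V : Type} {G : SimpleGraph V} {ρ : V} {T : Finset V} (hρ : ρ ∈ T)
    (h : ∀ v ∈ T, RW G ρ T v) : (G.induce (T : Set V)).Connected := by
  have : Nonempty (T : Set V) := ⟨⟨ρ, hρ⟩⟩
  have key : ∀ v : (T : Set V), (G.induce (T : Set V)).Reachable ⟨ρ, hρ⟩ v := by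
    rintro ⟨v, hv⟩
    obtain ⟨p, hp⟩ := h v hv
    exact ⟨p.induce (T : Set V) hp⟩
  exact ⟨fun u v => (key u).symm.trans (key v)⟩

lemma reachable {S : Set E} (hS : S ⊆ Hs) (h : LocFin S) (u v : S) :
    (vorGraph S).Reachable u v := by
  obtain ⟨a, ha, b, hb, -, h1⟩ := exists_path hS h (hS u.2) (hS v.2) (cell_nhds hS h u.2)
    (cell_nhds hS h v.2)
  obtain ⟨p, -⟩ := h1 u v ha hb
  exact ⟨p⟩

lemma dyadic (k : ℕ) {h : ℝ} (h1 : (1 / 2) ^ k ≤ h) (h2 : h ≤ 2) :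
    ∃ j ≤ k, (1 / 2) ^ j / 2 ≤ h ∧ h ≤ 2 * (1 / 2) ^ j := by
  induction k with
  | zero => exact ⟨0, le_rfl, by norm_num at h1 ⊢; linarith, by simpa using h2⟩
  | succ k ih =>
    by_cases h3 : (1 / 2) ^ k ≤ h
    · obtain ⟨j, hj, h4⟩ := ih h3
      exact ⟨j, by omega, h4⟩
    · have : (0 : ℝ) < (1 / 2) ^ (k + 1) := by positivity
      refine ⟨k + 1, le_rfl, by linarith, ?_⟩
      rw [pow_succ]; linarith

noncomputable def lo0 (j : ℕ) : ℝ := (1 / 2) ^ j / 2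
noncomputable def hi0 (j : ℕ) : ℝ := 2 * (1 / 2) ^ j
noncomputable def lo1 (n : ℝ) (j : ℕ) : ℝ := lo0 j / (64 * n ^ 2)
noncomputable def hi1 (n : ℝ) (j : ℕ) : ℝ := 64 * n ^ 2 * hi0 j
noncomputable def lo2 (n : ℝ) (j : ℕ) : ℝ := lo1 n j / (64 * n ^ 2)
noncomputable def hi2 (n : ℝ) (j : ℕ) : ℝ := 64 * n ^ 2 * hi1 n j

def Good (S : Set E) (x0 : ℝ) (k : ℕ) (n : ℝ) (M t : ℕ) : Prop :=
  ∀ j ≤ k, Conf S x0 (lo0 j) (hi0 j) n M ∧ Conf S x0 (lo1 n j) (hi1 n j) n M ∧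
    (S ∩ (Reg x0 (lo2 n j) (hi2 n j) \ UU x0 ((1 / 2) ^ k))).encard ≤ t

lemma Reg_step {x0 lo hi n : ℝ} (hlo : 0 ≤ lo) (hhi : 0 ≤ hi) (hn : 1 ≤ n) :
    Reg x0 lo hi ⊆ Reg x0 (lo / (64 * n ^ 2)) (64 * n ^ 2 * hi) := by
  have hn2 : 1 ≤ 64 * n ^ 2 := by linarith [one_le_pow₀ (n := 2) hn]
  exact Reg_mono (div_le_self hlo hn2) (le_mul_of_one_le_left hhi hn2)

theorem det {S : Set E} (hS : S ⊆ Hs) (h : LocFin S)
    (hdeg : ∀ v, ((vorGraph S).neighborSet v).Finite) (ρ : S) :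
    ∃ D0 : ℕ, ∀ (x0 : ℝ) (k : ℕ) (n : ℝ) (M t m : ℕ), 0 ≤ x0 → x0 ≤ 1 → 1 ≤ k → 1 ≤ n →
      320 * 4 * 64 ^ 2 * n ^ 7 ≤ M → 0 < m → Cluster S x0 ((1 / 2) ^ k) m → Good S x0 k n M t →
      ∃ T : Finset S, ρ ∈ T ∧ ((vorGraph S).induce (T : Set S)).Connected ∧
        m * m ≤ volE (vorGraph S) T ∧ bdry (vorGraph S) T ≤ D0 + (2 * m + (k + 1) * t) * t := by
  classical
  set G := vorGraph S with hG
  have hF : {u : S | ∃ z ∈ Reg 0 (1 / 2) 2, z ∈ cell S u}.Finite :=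
    ((h.meets hS (b := 2) (by norm_num)).preimage
      (Subtype.val_injective (p := (· ∈ S))).injOn).subset fun u hu => ⟨u.2, hu⟩
  have hw : ∀ u : S, Nonempty (G.Walk ρ u) := fun u => reachable hS h ρ u
  let w : ∀ u : S, G.Walk ρ u := fun u => (hw u).some
  let W0 : Finset S := insert ρ (hF.toFinset.biUnion fun u => (w u).support.toFinset)
  refine ⟨volE G W0, fun x0 k n M t m hx0 hx1 hk hn hM hm hC hGd => ?_⟩
  set s : ℝ := (1 / 2) ^ k with hsd
  have hs : 0 < s := by positivity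
  have hs1 : s ≤ 1 / 2 := by
    calc s ≤ (1 / 2) ^ 1 := pow_le_pow_of_le_one (by norm_num) (by norm_num) hk
      _ = 1 / 2 := by norm_num
  have hPe : ∀ i : ℕ, ∃ p : S, i < m → S ∩ TP x0 s m i = {p.1} := by
    intro i
    by_cases hi : i < m
    · obtain ⟨p, hp⟩ := hC.1 i hi
      exact ⟨⟨p, (hp.ge rfl).1⟩, fun _ => hp⟩
    · exact ⟨ρ, fun h => (hi h).elim⟩
  have hQe : ∀ i : ℕ, ∃ p : S, i < m → S ∩ TQ x0 s m i = {p.1} := by
    intro i
    by_cases hi : i < m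
    · obtain ⟨p, hp⟩ := hC.2.1 i hi
      exact ⟨⟨p, (hp.ge rfl).1⟩, fun _ => hp⟩
    · exact ⟨ρ, fun h => (hi h).elim⟩
  choose P hP using hPe
  choose Qf hQ using hQe
  have hP1 : ∀ i < m, (P i).1 ∈ TP x0 s m i := fun i hi => ((hP i hi).ge rfl).2
  have hQ1 : ∀ i < m, (Qf i).1 ∈ TQ x0 s m i := fun i hi => ((hQ i hi).ge rfl).2
  have hadj : ∀ i < m, ∀ j < m, G.Adj (P i) (Qf j) := fun i hi j hj =>
    hC.adj hS h hs hi hj (hP1 i hi) (hQ1 j hj)
  let Cl : Finset S := (Finset.range m).image P ∪ (Finset.range m).image Qf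
  have hCl : ∀ v : S, v.1 ∈ UU x0 s → v ∈ Cl := by
    intro v hv
    rcases hC.2.2 v v.2 hv with ⟨i, hi, h1⟩ | ⟨i, hi, h1⟩
    · exact Finset.mem_union_left _ (Finset.mem_image.2 ⟨i, Finset.mem_range.2 hi,
        Subtype.ext ((hP i hi).le ⟨v.2, h1⟩).symm⟩)
    · exact Finset.mem_union_right _ (Finset.mem_image.2 ⟨i, Finset.mem_range.2 hi,
        Subtype.ext ((hQ i hi).le ⟨v.2, h1⟩).symm⟩)
  have hCl2 : ∀ v ∈ Cl, v.1 ∈ UU x0 s := by
    intro v hv
    rcases Finset.mem_union.1 hv with hv | hv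
    · obtain ⟨i, hi, rfl⟩ := Finset.mem_image.1 hv
      exact TP_sub hs (Finset.mem_range.1 hi) (hP1 i (Finset.mem_range.1 hi))
    · obtain ⟨i, hi, rfl⟩ := Finset.mem_image.1 hv
      exact TQ_sub hs (Finset.mem_range.1 hi) (hQ1 i (Finset.mem_range.1 hi))
  have hClc : Cl.card ≤ 2 * m := by
    have h1 := Finset.card_union_le ((Finset.range m).image P) ((Finset.range m).image Qf)
    have h2 := Finset.card_image_le (s := Finset.range m) (f := P)
    have h3 := Finset.card_image_le (s := Finset.range m) (f := Qf)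
    rw [Finset.card_range] at h2 h3
    change ((Finset.range m).image P ∪ (Finset.range m).image Qf).card ≤ _
    omega
  have hUU : ∀ z ∈ UU x0 s, |z.1 - x0| < s / 2 ∧ |z.2.1| < s / 2 ∧ |z.2.2 - 3 / 2 * s| < s / 2 := by
    rintro z ⟨h1, h2, h3⟩
    refine ⟨?_, ?_, ?_⟩
    · convert h1 using 2 <;> ring
    · convert h2 using 2 <;> ring
    · convert h3 using 2 <;> ring
  -- the path
  have hP0 := hP1 0 hm
  obtain ⟨b1, b2, -⟩ := hUU _ (TP_sub hs hm hP0)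
  have b3 : |(P 0).1.2.2 - 7 / 5 * s| < s / 40 := by
    have e1 := hP0.2.2
    have e2 := dl_le hm
    have e3 := sg_le hm
    have e4 : dl m * s ≤ 1 / 80 * s := by gcongr; linarith
    rw [show (3 / 2 + -(1 / 10)) * s = 7 / 5 * s by ring] at e1
    linarith
  obtain ⟨a', ha', b', ⟨hb', hb''⟩, ha'H, hpath⟩ := exists_path hS h
    (a := ((P 0).1.1, (P 0).1.2.1, 1)) (b := (P 0).1) (show (0 : ℝ) < 1 from one_pos) (hS (P 0).2)
    (Metric.ball_mem_nhds _ (show 0 < s / 8 by positivity))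
    (inter_mem (Metric.ball_mem_nhds _ (show 0 < s / 8 by positivity)) (cell_nhds hS h (P 0).2))
  rw [Metric.mem_ball, Prod.dist_eq, Prod.dist_eq, max_lt_iff, max_lt_iff, Real.dist_eq,
    Real.dist_eq, Real.dist_eq] at ha' hb'
  obtain ⟨c1, c2, c3⟩ := ha'
  obtain ⟨c4, c5, c6⟩ := hb'
  dsimp only at c1 c2 c3
  rw [abs_lt] at b1 b2 b3 c1 c2 c3 c4 c5 c6
  obtain ⟨u0, hu0, hau⟩ := h.cover hS ⟨ρ, ρ.2⟩ ha'H
  obtain ⟨p, hp⟩ := hpath ⟨u0, hu0⟩ (P 0) hau hb''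
  have hu0F : (⟨u0, hu0⟩ : S) ∈ hF.toFinset := by
    rw [Set.Finite.mem_toFinset]
    exact ⟨a', ⟨abs_le.2 ⟨by linarith, by linarith⟩, abs_le.2 ⟨by linarith, by linarith⟩,
      by linarith, by linarith⟩, hau⟩
  have hlo0 : ∀ j, 0 < lo0 j := fun j => by unfold lo0; positivity
  have hhi0 : ∀ j, 0 < hi0 j := fun j => by unfold hi0; positivity
  have hlo1 : ∀ j, 0 < lo1 n j := fun j => by have := hlo0 j; unfold lo1; positivity
  have hhi1 : ∀ j, 0 < hi1 n j := fun j => by have := hhi0 j; unfold hi1; positivity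
  have hM1 : ∀ j, 320 * n ^ 3 * hi1 n j ≤ M * lo1 n j := by
    intro j
    have : 320 * n ^ 3 * hi1 n j = (320 * 4 * 64 ^ 2 * n ^ 7) * lo1 n j := by
      unfold hi1 lo1 hi0 lo0; field_simp; ring
    rw [this]
    exact mul_le_mul_of_nonneg_right hM (hlo1 j).le
  have hM0 : ∀ j, 320 * n ^ 3 * hi0 j ≤ M * lo0 j := by
    intro j
    have : 320 * n ^ 3 * hi0 j = (320 * 4 * n ^ 3) * lo0 j := by
      unfold hi0 lo0; ring
    rw [this]
    refine mul_le_mul_of_nonneg_right (le_trans ?_ hM) (hlo0 j).le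
    have : n ^ 3 ≤ n ^ 7 := pow_le_pow_right₀ hn (by norm_num)
    have : 0 ≤ n ^ 3 := by positivity
    linarith
  let T1 : Finset S := p.support.toFinset ∪ Cl
  have hT1 : ∀ v ∈ T1, ∃ j ≤ k, v.1 ∈ Reg x0 (lo1 n j) (hi1 n j) := by
    intro v hv
    rcases Finset.mem_union.1 hv with hv | hv
    · obtain ⟨τ, t0, t1, hτ⟩ := hp v (List.mem_toFinset.1 hv)
      obtain ⟨g1, g2, g3, g4⟩ := gam_reg (x0 := x0) (lo := s) (hi := 2) (r := s) hs.le
        (a := a') (b := b') (abs_le.2 ⟨by linarith, by linarith⟩)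
        (abs_le.2 ⟨by linarith, by linarith⟩) (abs_le.2 ⟨by linarith, by linarith⟩)
        (abs_le.2 ⟨by linarith, by linarith⟩) (by linarith) (by linarith) (by norm_num)
        (by nlinarith) (by nlinarith) t0 t1
      obtain ⟨j, hj, d1, d2⟩ := dyadic k g3 g4
      have hsj : s ≤ (1 / 2) ^ j := pow_le_pow_of_le_one (by norm_num) (by norm_num) hj
      obtain ⟨c, r, e1, e2, e3⟩ := ball_of_cell hS v.2 hτ
      refine ⟨j, hj, confine (hGd j hj).1 (hlo0 j) hn (hM0 j) e1 e2 (e3 v v.2 hτ)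
        ⟨?_, ?_, d1, d2⟩⟩ <;> (unfold hi0; linarith)
    · obtain ⟨e1, e2, e3⟩ := hUU _ (hCl2 v hv)
      refine ⟨k, le_rfl, Reg_step (hlo0 k).le (hhi0 k).le hn ?_⟩
      rw [abs_lt] at e3
      unfold lo0 hi0
      exact ⟨by linarith, by linarith, by linarith, by linarith⟩
  have hsub : ∀ j, Reg x0 (lo1 n j) (hi1 n j) ⊆ Reg x0 (lo2 n j) (hi2 n j) := fun j =>
    Reg_step (hlo1 j).le (hhi1 j).le hn
  have hcard : ∀ j ≤ k, ∀ A : Set S,
      (∀ v ∈ A, v.1 ∈ Reg x0 (lo2 n j) (hi2 n j) ∧ v.1 ∉ UU x0 s) → A.encard ≤ t := by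
    intro j hj A hA
    rw [← (Subtype.val_injective (p := (· ∈ S))).encard_image]
    refine (Set.encard_le_encard ?_).trans (hGd j hj).2.2
    rintro _ ⟨v, hv, rfl⟩
    exact ⟨v.2, hA v hv⟩
  have hT1c : T1.card ≤ 2 * m + (k + 1) * t := by
    have e1 : (T1 : Set S) ⊆ (Cl : Set S) ∪ ⋃ j ∈ Finset.range (k + 1),
        {v : S | v.1 ∈ Reg x0 (lo2 n j) (hi2 n j) ∧ v.1 ∉ UU x0 s} := by
      intro v hv
      by_cases hU : v.1 ∈ UU x0 s
      · exact Or.inl (hCl v hU)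
      · obtain ⟨j, hj, h1⟩ := hT1 v hv
        exact Or.inr (Set.mem_biUnion (Finset.mem_coe.2 (Finset.mem_range.2 (by omega)))
          ⟨hsub j h1, hU⟩)
    have e2 := (Set.encard_le_encard e1).trans (Set.encard_union_le _ _)
    rw [Set.encard_coe_eq_coe_finsetCard, Set.encard_coe_eq_coe_finsetCard] at e2
    have e3 := ((Finset.range (k + 1)).set_encard_biUnion_le fun j =>
      {v : S | v.1 ∈ Reg x0 (lo2 n j) (hi2 n j) ∧ v.1 ∉ UU x0 s}).trans
      (Finset.sum_le_card_nsmul _ _ (t : ℕ∞) fun j hj =>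
        hcard j (by have := Finset.mem_range.1 hj; omega) _ fun v hv => hv)
    rw [Finset.card_range, nsmul_eq_mul] at e3
    have e4 : (T1.card : ℕ∞) ≤ ((Cl.card + (k + 1) * t : ℕ) : ℕ∞) := by
      push_cast at e3 ⊢
      exact e2.trans (add_le_add le_rfl e3)
    have e5 : T1.card ≤ Cl.card + (k + 1) * t := by exact_mod_cast e4
    omega
  have hρT : ρ ∈ W0 ∪ T1 := Finset.mem_union_left _ (Finset.mem_insert_self _ _)
  have hClT : ∀ v ∈ Cl, v ∈ W0 ∪ T1 := fun v hv =>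
    Finset.mem_union_right _ (Finset.mem_union_right _ hv)
  have hPT : ∀ i < m, P i ∈ Cl := fun i hi =>
    Finset.mem_union_left _ (Finset.mem_image_of_mem _ (Finset.mem_range.2 hi))
  have hQT : ∀ i < m, Qf i ∈ Cl := fun i hi =>
    Finset.mem_union_right _ (Finset.mem_image_of_mem _ (Finset.mem_range.2 hi))
  refine ⟨W0 ∪ T1, hρT, connected_of_RW hρT ?_, ?_, ?_⟩
  · have r0 : RW G ρ (W0 ∪ T1) ρ := ⟨Walk.nil, by simpa using hρT⟩
    have r1 : ∀ u ∈ hF.toFinset, ∀ v ∈ (w u).support, RW G ρ (W0 ∪ T1) v := fun u hu =>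
      r0.walk (w u) fun v hv => Finset.mem_union_left _ (Finset.mem_insert_of_mem
        (Finset.mem_biUnion.2 ⟨u, hu, List.mem_toFinset.2 hv⟩))
    have r2 : ∀ v ∈ p.support, RW G ρ (W0 ∪ T1) v :=
      (r1 _ hu0F _ (w _).end_mem_support).walk p fun v hv =>
        Finset.mem_union_right _ (Finset.mem_union_left _ (List.mem_toFinset.2 hv))
    have r3 : ∀ j < m, RW G ρ (W0 ∪ T1) (Qf j) := fun j hj =>
      (r2 _ p.end_mem_support).step (hadj 0 hm j hj) (hClT _ (hQT j hj))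
    have r4 : ∀ j < m, RW G ρ (W0 ∪ T1) (P j) := fun j hj =>
      (r3 0 hm).step (hadj j hj 0 hm).symm (hClT _ (hPT j hj))
    intro v hv
    rcases Finset.mem_union.1 hv with hv | hv
    · rcases Finset.mem_insert.1 hv with rfl | hv
      · exact r0
      · obtain ⟨u, hu, hv⟩ := Finset.mem_biUnion.1 hv
        exact r1 u hu v (List.mem_toFinset.1 hv)
    · rcases Finset.mem_union.1 hv with hv | hv
      · exact r2 v (List.mem_toFinset.1 hv)
      · rcases Finset.mem_union.1 hv with hv | hv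
        · obtain ⟨i, hi, rfl⟩ := Finset.mem_image.1 hv
          exact r4 i (Finset.mem_range.1 hi)
        · obtain ⟨i, hi, rfl⟩ := Finset.mem_image.1 hv
          exact r3 i (Finset.mem_range.1 hi)
  · have i1 : Set.InjOn P (Finset.range m) := fun i hi j hj e =>
      TP_disj hs hm (hP1 i (Finset.mem_range.1 hi)) (e ▸ hP1 j (Finset.mem_range.1 hj))
    have i2 : Set.InjOn Qf (Finset.range m) := fun i hi j hj e =>
      TQ_disj hs hm (hQ1 i (Finset.mem_range.1 hi)) (e ▸ hQ1 j (Finset.mem_range.1 hj))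
    have e1 : ∀ v ∈ (Finset.range m).image P, m ≤ (G.neighborSet v).ncard := by
      intro v hv
      obtain ⟨i, hi, rfl⟩ := Finset.mem_image.1 hv
      calc m = (((Finset.range m).image Qf : Finset S) : Set S).ncard := by
            rw [Set.ncard_coe_finset, Finset.card_image_of_injOn i2, Finset.card_range]
        _ ≤ _ := by
            refine Set.ncard_le_ncard ?_ (hdeg _)
            intro v hv
            obtain ⟨j, hj, rfl⟩ := Finset.mem_image.1 hv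
            exact hadj i (Finset.mem_range.1 hi) j (Finset.mem_range.1 hj)
    calc m * m = ((Finset.range m).image P).card • m := by
          rw [Finset.card_image_of_injOn i1, Finset.card_range, smul_eq_mul]
      _ ≤ ∑ v ∈ (Finset.range m).image P, (G.neighborSet v).ncard :=
          Finset.card_nsmul_le_sum _ _ _ e1
      _ ≤ _ := Finset.sum_le_sum_of_subset fun v hv => hClT v (Finset.mem_union_left _ hv)
  · refine (bdry_le G hdeg _).trans ?_
    have e1 := Finset.sum_union_inter (s₁ := W0) (s₂ := T1)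
      (f := fun u => {v | G.Adj u v ∧ v ∉ W0 ∪ T1}.ncard)
    have e2 : ∑ u ∈ W0, {v | G.Adj u v ∧ v ∉ W0 ∪ T1}.ncard ≤ volE G W0 :=
      Finset.sum_le_sum fun u _ => Set.ncard_le_ncard (fun v hv => hv.1) (hdeg u)
    have e3 : ∑ u ∈ T1, {v | G.Adj u v ∧ v ∉ W0 ∪ T1}.ncard ≤ T1.card • t := by
      refine Finset.sum_le_card_nsmul _ _ _ fun u hu => ?_
      obtain ⟨j, hj, h1⟩ := hT1 u hu
      refine ENat.toNat_le_of_le_coe (hcard j hj _ fun v hv => ⟨?_, fun hU => ?_⟩)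
      · obtain ⟨c, r, f1, f2, f3⟩ := ball_of_adj hS hv.1
        exact confine (hGd j hj).2.1 (hlo1 j) hn (hM1 j) f1 f2 f3 h1
      · exact hv.2 (hClT v (hCl v hU))
    rw [smul_eq_mul] at e3
    have e4 := Nat.mul_le_mul_right t hT1c
    omega

lemma finite_deg {S : Set E} (hS : S ⊆ Hs) (h : LocFin S)
    (hC : ∀ a : ℕ, 1 ≤ a → ∃ n : ℝ, ∃ M : ℕ, 1 ≤ n ∧ 320 * n ^ 3 * a ≤ M * (1 / a) ∧
      Conf S 0 (1 / a) a n M) (v : S) : ((vorGraph S).neighborSet v).Finite := by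
  obtain ⟨b, h1, -, h2, h3, h4, h5⟩ := exists_reg (hS v.2) 0
  obtain ⟨a, ha⟩ := exists_nat_ge b
  have ha1 : (1 : ℝ) ≤ a := h1.trans ha
  obtain ⟨n, M, hn, hM, hc⟩ := hC a (by exact_mod_cast ha1)
  have hv : v.1 ∈ Reg 0 (1 / a) a := Reg_mono (one_div_le_one_div_of_le (by linarith) ha) ha
    ⟨h2.le, h3.le, h4.le, h5.le⟩
  have hb : 1 ≤ 64 * n ^ 2 * a := by nlinarith [one_le_pow₀ (n := 2) hn]
  refine ((h _ hb).preimage (Subtype.val_injective (p := (· ∈ S))).injOn).subset fun u hu => ?_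
  obtain ⟨c, r, f1, f2, f3⟩ := ball_of_adj hS hu
  have := confine hc (by positivity) hn hM f1 f2 f3 hv
  rw [show 1 / (a : ℝ) / (64 * n ^ 2) = 1 / (64 * n ^ 2 * a) by field_simp] at this
  exact ⟨u.2, this⟩

end Pool.Agent.H78Z.AE
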