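import Mathlib

open MeasureTheory

namespace Pool.Agent.H78Z.AE

/-- The open upper half-space of `ℝ³`, the underlying set of hyperbolic three-space. -/
def Hs : Set (ℝ × ℝ × ℝ) := {p | 0 < p.2.2}

/-- The hyperbolic distance (curvature -1) in the upper half-space model. -/
noncomputable def hdist (p q : ℝ × ℝ × ℝ) : ℝ :=
  Real.arcosh (1 + ((p.1 - q.1) ^ 2 + (p.2.1 - q.2.1) ^ 2 + (p.2.2 - q.2.2) ^ 2) /
    (2 * p.2.2 * q.2.2))

/-- The hyperbolic volume `dx dy dh / h ^ 3` on the upper half-space. -/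
noncomputable def hvol : Measure (ℝ × ℝ × ℝ) :=
  (volume.restrict Hs).withDensity fun p => ENNReal.ofReal (1 / p.2.2 ^ 3)

/-- `Pi` is a Poisson point process on hyperbolic three-space with intensity `lam` times the
hyperbolic volume: the point counts of Borel sets of finite volume are random variables, and for
pairwise disjoint such sets they are independent Poisson variables. -/
structure IsPoissonPP {Ω : Type} [MeasurableSpace Ω] (P : Measure Ω) (lam : ℝ)
    (Pi : Ω → Set (ℝ × ℝ × ℝ)) : Prop where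
  sub : ∀ ω, Pi ω ⊆ Hs
  meas : ∀ A : Set (ℝ × ℝ × ℝ), MeasurableSet A → hvol A ≠ ⊤ →
    ∀ k : ℕ, MeasurableSet {ω | (Pi ω ∩ A).encard = k}
  law : ∀ (n : ℕ) (A : Fin n → Set (ℝ × ℝ × ℝ)) (k : Fin n → ℕ),
    (∀ i, MeasurableSet (A i)) → (∀ i, hvol (A i) ≠ ⊤) →
    (∀ i j, i ≠ j → Disjoint (A i) (A j)) →
    P {ω | ∀ i, (Pi ω ∩ A i).encard = k i} =
      ∏ i, ENNReal.ofReal (Real.exp (-(lam * (hvol (A i)).toReal)) *
        (lam * (hvol (A i)).toReal) ^ (k i) / (Nat.factorial (k i) : ℝ))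

/-- The Voronoi cell of `p` with respect to `S`. -/
def cell (S : Set (ℝ × ℝ × ℝ)) (p : ℝ × ℝ × ℝ) : Set (ℝ × ℝ × ℝ) :=
  {z | z ∈ Hs ∧ ∀ q ∈ S, hdist z p ≤ hdist z q}

/-- The dual graph of the Voronoi tessellation of `S`: distinct `p, q` are adjacent when the
intersection of their cells is a two-dimensional face, that is, contains a nonempty relatively
open piece of the bisector of `p` and `q`. -/
def vorGraph (S : Set (ℝ × ℝ × ℝ)) : SimpleGraph S where
  Adj p q := p ≠ q ∧ ∃ z ∈ Hs, hdist z p = hdist z q ∧ ∃ ε : ℝ, 0 < ε ∧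
    ∀ w ∈ Hs, hdist w z < ε → hdist w p = hdist w q → w ∈ cell S p ∩ cell S q
  symm := ⟨fun _ _ h => ⟨h.1.symm, by
    obtain ⟨z, hz, h1, ε, hε, h2⟩ := h.2
    exact ⟨z, hz, h1.symm, ε, hε, fun w hw h3 h4 =>
      ⟨(h2 w hw h3 h4.symm).2, (h2 w hw h3 h4.symm).1⟩⟩⟩⟩
  loopless := ⟨fun _ h => h.1 rfl⟩

/-- The sum of the degrees of the vertices of `T`. -/
noncomputable def volE {V : Type} (G : SimpleGraph V) (T : Finset V) : ℕ :=
  ∑ v ∈ T, (G.neighborSet v).ncard

/-- The number of edges with exactly one end point in `T`. -/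
noncomputable def bdry {V : Type} (G : SimpleGraph V) (T : Finset V) : ℕ :=
  {e ∈ G.edgeSet | ∃ u ∈ T, ∃ v ∉ T, e = s(u, v)}.ncard

/-- The infimum of `|∂T| / |T|_E` over finite connected `T` containing `ρ` with `|T|_E ≥ n`. -/
noncomputable def isoInf {V : Type} (G : SimpleGraph V) (ρ : V) (n : ℕ) : ENNReal :=
  ⨅ (T : Finset V) (_ : ρ ∈ T) (_ : (G.induce (T : Set V)).Connected) (_ : n ≤ volE G T),
    (bdry G T : ENNReal) / (volE G T : ENNReal)

end Pool.Agent.H78Z.AE
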