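import Pool.Agent.H78Z.AE.D

namespace Pool.Agent.H78Z.AE

open Real Filter Topology MeasureTheory ProbabilityTheory

lemma meas_Hs : MeasurableSet Hs := measurableSet_lt measurable_const (by fun_prop)

lemma hvol_apply {A : Set E} (hA : MeasurableSet A) :
    hvol A = ∫⁻ z in A ∩ Hs, ENNReal.ofReal (1 / z.2.2 ^ 3) := by
  unfold hvol
  rw [withDensity_apply _ hA, Measure.restrict_restrict hA]

lemma hvol_le {A : Set E} (hA : MeasurableSet A) {lo : ℝ} (hlo : 0 < lo)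
    (h : ∀ z ∈ A, lo ≤ z.2.2) : hvol A ≤ ENNReal.ofReal (1 / lo ^ 3) * volume A := by
  rw [hvol_apply hA]
  calc _ ≤ ∫⁻ _ in A ∩ Hs, ENNReal.ofReal (1 / lo ^ 3) := by
        refine setLIntegral_mono' (hA.inter meas_Hs) fun z hz => ENNReal.ofReal_le_ofReal ?_
        have := h z hz.1
        gcongr
    _ ≤ _ := by
        rw [setLIntegral_const]
        gcongr
        exact Set.inter_subset_left

lemma hvol_ge {A : Set E} (hA : MeasurableSet A) {hi : ℝ}
    (h : ∀ z ∈ A, 0 < z.2.2 ∧ z.2.2 ≤ hi) : ENNReal.ofReal (1 / hi ^ 3) * volume A ≤ hvol A := by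
  rw [hvol_apply hA, Set.inter_eq_self_of_subset_left (show A ⊆ Hs from fun z hz => (h z hz).1),
    ← setLIntegral_const]
  refine setLIntegral_mono' hA fun z hz => ENNReal.ofReal_le_ofReal ?_
  obtain ⟨h1, h2⟩ := h z hz
  gcongr

lemma hvol_shift {A : Set E} (hA : MeasurableSet A) (x : ℝ) :
    hvol ((fun z : E => z + (x, 0, 0)) ⁻¹' A) = hvol A := by
  have i1 : (volume : Measure (ℝ × ℝ)).IsAddRightInvariant := by
    rw [Measure.volume_eq_prod]; infer_instance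
  have i2 : (volume : Measure E).IsAddRightInvariant := by
    rw [Measure.volume_eq_prod]; infer_instance
  rw [hvol_apply hA, hvol_apply (hA.preimage (by fun_prop)),
    ← lintegral_indicator (hA.inter meas_Hs),
    ← lintegral_indicator ((hA.preimage (by fun_prop)).inter meas_Hs),
    ← lintegral_add_right_eq_self (μ := (volume : Measure E)) ((A ∩ Hs).indicator _) (x, 0, 0)]
  congr 1
  ext z
  have e : z ∈ (fun z : E => z + (x, 0, 0)) ⁻¹' A ∩ Hs ↔ z + (x, 0, 0) ∈ A ∩ Hs := by simp [Hs]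
  by_cases hz : z + (x, 0, 0) ∈ A ∩ Hs
  · rw [Set.indicator_of_mem hz, Set.indicator_of_mem (e.2 hz)]
    simp
  · rw [Set.indicator_of_notMem hz, Set.indicator_of_notMem (fun h => hz (e.1 h))]

lemma vol3 (A B C : Set ℝ) : (volume : Measure E) (A ×ˢ B ×ˢ C) =
    volume A * (volume B * volume C) := by
  rw [Measure.volume_eq_prod, Measure.prod_prod, Measure.volume_eq_prod, Measure.prod_prod]

lemma Bx_eq (x0 η w : ℝ) (p q : ℤ) : Bx x0 η w p q = Set.Icc (x0 + p * w) (x0 + p * w + w) ×ˢ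
    Set.Icc (q * w) (q * w + w) ×ˢ Set.Icc η (2 * η) := rfl

lemma Bx_meas (x0 η w : ℝ) (p q : ℤ) : MeasurableSet (Bx x0 η w p q) :=
  measurableSet_Icc.prod (measurableSet_Icc.prod measurableSet_Icc)

lemma Bx_vol (x0 : ℝ) {η w : ℝ} (hw : 0 ≤ w) (p q : ℤ) :
    volume (Bx x0 η w p q) = ENNReal.ofReal (w * (w * η)) := by
  rw [Bx_eq, vol3, Real.volume_Icc, Real.volume_Icc, Real.volume_Icc, ENNReal.ofReal_mul hw,
    ENNReal.ofReal_mul hw]
  congr 2 <;> [ring_nf; (congr 1; ring); (congr 1; ring)]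

lemma Bx_fin (x0 : ℝ) {η w : ℝ} (hη : 0 < η) (hw : 0 ≤ w) (p q : ℤ) : hvol (Bx x0 η w p q) ≠ ⊤ := by
  refine ne_top_of_le_ne_top ?_ (hvol_le (Bx_meas _ _ _ _ _) hη fun z hz => hz.2.2.1)
  rw [Bx_vol _ hw]
  exact ENNReal.mul_ne_top ENNReal.ofReal_ne_top ENNReal.ofReal_ne_top

lemma Bx_ge (x0 : ℝ) {η n : ℝ} (hη : 0 < η) (hn : 0 ≤ n) (p q : ℤ) :
    ENNReal.ofReal (n ^ 2 / 32) ≤ hvol (Bx x0 η (η * n / 2) p q) := by
  refine le_trans (le_of_eq ?_) (hvol_ge (hi := 2 * η) (Bx_meas _ _ _ _ _)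
    fun z hz => ⟨hη.trans_le hz.2.2.1, hz.2.2.2⟩)
  rw [Bx_vol _ (by positivity), ← ENNReal.ofReal_mul (by positivity)]
  congr 1
  field_simp
  ring

lemma Reg_eq (x0 lo hi : ℝ) : Reg x0 lo hi = Set.Icc (x0 - hi) (x0 + hi) ×ˢ
    Set.Icc (-hi) hi ×ˢ Set.Icc lo hi := by
  ext z
  simp only [Reg, Set.mem_prod, Set.mem_Icc, abs_le, Set.mem_setOf_eq]
  constructor
  · rintro ⟨⟨h1, h2⟩, h3⟩; exact ⟨⟨by linarith, by linarith⟩, h3⟩
  · rintro ⟨⟨h1, h2⟩, h3⟩; exact ⟨⟨by linarith, by linarith⟩, h3⟩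

lemma Reg_meas (x0 lo hi : ℝ) : MeasurableSet (Reg x0 lo hi) := by
  rw [Reg_eq]
  exact measurableSet_Icc.prod (measurableSet_Icc.prod measurableSet_Icc)

lemma Reg_le (x0 : ℝ) {lo hi : ℝ} (hlo : 0 < lo) (hhi : 0 ≤ hi) :
    hvol (Reg x0 lo hi) ≤ ENNReal.ofReal (4 * (hi / lo) ^ 3) := by
  refine (hvol_le (Reg_meas _ _ _) hlo fun z hz => hz.2.2.1).trans ?_
  rw [Reg_eq, vol3, Real.volume_Icc, Real.volume_Icc, Real.volume_Icc,
    ← ENNReal.ofReal_mul (by linarith), ← ENNReal.ofReal_mul (by linarith),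
    ← ENNReal.ofReal_mul (by positivity)]
  refine ENNReal.ofReal_le_ofReal ?_
  calc 1 / lo ^ 3 * ((x0 + hi - (x0 - hi)) * ((hi - -hi) * (hi - lo)))
      = 1 / lo ^ 3 * (4 * hi ^ 2 * (hi - lo)) := by ring
    _ ≤ 1 / lo ^ 3 * (4 * hi ^ 2 * hi) := by gcongr; linarith
    _ = _ := by field_simp

lemma obox_eq (a b c r : ℝ) : obox a b c r = Set.Ioo (a - r) (a + r) ×ˢ
    Set.Ioo (b - r) (b + r) ×ˢ Set.Ioo (c - r) (c + r) := by
  ext z
  simp only [obox, Set.mem_prod, Set.mem_Ioo, abs_lt, Set.mem_setOf_eq]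
  constructor
  · rintro ⟨⟨h1, h2⟩, ⟨h3, h4⟩, h5, h6⟩
    exact ⟨⟨by linarith, by linarith⟩, ⟨by linarith, by linarith⟩, by linarith, by linarith⟩
  · rintro ⟨⟨h1, h2⟩, ⟨h3, h4⟩, h5, h6⟩
    exact ⟨⟨by linarith, by linarith⟩, ⟨by linarith, by linarith⟩, by linarith, by linarith⟩

lemma obox_meas (a b c r : ℝ) : MeasurableSet (obox a b c r) := by
  rw [obox_eq]
  exact measurableSet_Ioo.prod (measurableSet_Ioo.prod measurableSet_Ioo)

lemma obox_vol (a b c : ℝ) {r : ℝ} (hr : 0 ≤ r) :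
    volume (obox a b c r) = ENNReal.ofReal ((2 * r) ^ 3) := by
  rw [obox_eq, vol3, Real.volume_Ioo, Real.volume_Ioo, Real.volume_Ioo,
    ← ENNReal.ofReal_mul (by linarith), ← ENNReal.ofReal_mul (by linarith)]
  congr 1
  ring

lemma UU_h {x0 s : ℝ} {z : E} (hz : z ∈ UU x0 s) : s < z.2.2 ∧ z.2.2 < 2 * s := by
  have := abs_lt.1 hz.2.2
  constructor <;> linarith

lemma UU_le (x0 : ℝ) {s : ℝ} (hs : 0 < s) : hvol (UU x0 s) ≤ 1 := by
  refine (hvol_le (obox_meas _ _ _ _) hs fun z hz => (UU_h hz).1.le).trans (le_of_eq ?_)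
  rw [obox_vol _ _ _ (by positivity), ← ENNReal.ofReal_mul (by positivity), ← ENNReal.ofReal_one]
  congr 1
  field_simp

lemma sbox_ge {x0 s a b c r : ℝ} (hs : 0 < s) (hr : 0 ≤ r) (h : sbox x0 s a b c r ⊆ UU x0 s) :
    ENNReal.ofReal (r ^ 3) ≤ hvol (sbox x0 s a b c r) := by
  refine le_trans (le_of_eq ?_) (hvol_ge (hi := 2 * s) (obox_meas _ _ _ _)
    fun z hz => ⟨hs.trans (UU_h (h hz)).1, (UU_h (h hz)).2.le⟩)
  rw [obox_vol _ _ _ (by positivity), ← ENNReal.ofReal_mul (by positivity)]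
  congr 1
  field_simp

lemma sbox_shift (x0 s a b c r : ℝ) :
    (fun z : E => z + (-x0, 0, 0)) ⁻¹' sbox 0 s a b c r = sbox x0 s a b c r := by
  ext z
  simp only [sbox, obox, Set.mem_preimage, Set.mem_setOf_eq, Prod.fst_add, Prod.snd_add, add_zero]
  rw [show z.1 + -x0 - (0 + a * s) = z.1 - (x0 + a * s) by ring]

noncomputable def pois (lam : ℝ) (A : Set E) (k : ℕ) : ENNReal :=
  ENNReal.ofReal (Real.exp (-(lam * (hvol A).toReal)) *
    (lam * (hvol A).toReal) ^ k / (Nat.factorial k : ℝ))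

variable {Ω : Type} [MeasurableSpace Ω] {P : Measure Ω} {lam : ℝ} {Pi : Ω → Set E}

lemma IsPoissonPP.law' (h : IsPoissonPP P lam Pi) {ι : Type} [Fintype ι] (A : ι → Set E)
    (k : ι → ℕ) (h1 : ∀ i, MeasurableSet (A i)) (h2 : ∀ i, hvol (A i) ≠ ⊤)
    (h3 : ∀ i j, i ≠ j → Disjoint (A i) (A j)) :
    P {ω | ∀ i, (Pi ω ∩ A i).encard = k i} = ∏ i, pois lam (A i) (k i) := by
  let e := (Fintype.equivFin ι).symm
  have := h.law (Fintype.card ι) (fun i => A (e i)) (fun i => k (e i)) (fun i => h1 _)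
    (fun i => h2 _) (fun i j hij => h3 _ _ (e.injective.ne hij))
  rw [← e.prod_comp (fun i => pois lam (A i) (k i))]
  rw [show {ω | ∀ i, (Pi ω ∩ A i).encard = k i} =
    {ω | ∀ i, (Pi ω ∩ A (e i)).encard = k (e i)} from ?_]
  · exact this
  · ext ω
    exact (e.forall_congr_right (q := fun i => (Pi ω ∩ A i).encard = k i)).symm

lemma hasSum_pois {μ : ℝ} (hμ : 0 ≤ μ) :
    HasSum (fun n : ℕ => rexp (-μ) * μ ^ n / (n.factorial : ℝ)) 1 :=
  hasSum_one_poissonMeasure (⟨μ, hμ⟩ : NNReal)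

lemma IsPoissonPP.single (h : IsPoissonPP P lam Pi) {A : Set E} (h1 : MeasurableSet A)
    (h2 : hvol A ≠ ⊤) (k : ℕ) : P {ω | (Pi ω ∩ A).encard = k} = pois lam A k := by
  have := h.law' (ι := Unit) (fun _ => A) (fun _ => k) (fun _ => h1) (fun _ => h2)
    (fun i j hij => (hij rfl).elim)
  simpa using this

lemma IsPoissonPP.finite [IsProbabilityMeasure P] (h : IsPoissonPP P lam Pi) (hlam : 0 < lam)
    {A : Set E} (h1 : MeasurableSet A) (h2 : hvol A ≠ ⊤) :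
    ∀ᵐ ω ∂P, (Pi ω ∩ A).Finite := by
  have e2 : P (⋃ k : ℕ, {ω | (Pi ω ∩ A).encard = k}) = 1 := by
    rw [measure_iUnion ?_ (fun k => h.meas A h1 h2 k)]
    · simp only [h.single h1 h2, pois]
      have hs := hasSum_pois (μ := lam * (hvol A).toReal) (by positivity)
      rw [← ENNReal.ofReal_tsum_of_nonneg (fun k => by positivity) hs.summable]
      exact (congrArg ENNReal.ofReal hs.tsum_eq).trans ENNReal.ofReal_one
    · intro i j hij
      rw [Function.onFun, Set.disjoint_left]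
      intro ω hi hj
      exact hij (by exact_mod_cast (Eq.symm hi).trans hj)
  have e3 := (mem_ae_iff_prob_eq_one (MeasurableSet.iUnion fun k => h.meas A h1 h2 k)).2 e2
  filter_upwards [e3] with ω hω
  obtain ⟨k, hk⟩ := Set.mem_iUnion.1 hω
  exact Set.finite_of_encard_eq_coe hk

def Ind (P : Measure Ω) (lam : ℝ) (Pi : Ω → Set E) (Ev : Set Ω) (U : Set E) : Prop :=
  MeasurableSet U ∧ hvol U ≤ 1 ∧ ∀ T : Set E, MeasurableSet T → hvol T ≠ ⊤ → Disjoint T U →
    ∀ r : ℕ, P (Ev ∩ {ω | (Pi ω ∩ T).encard = r}) = P Ev * pois lam T r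

lemma IsPoissonPP.ind_univ [IsProbabilityMeasure P] (h : IsPoissonPP P lam Pi) :
    Ind P lam Pi Set.univ ∅ :=
  ⟨MeasurableSet.empty, by simp, fun T h1 h2 _ r => by
    rw [Set.univ_inter, h.single h1 h2, measure_univ, one_mul]⟩

lemma IsPoissonPP.ind (h : IsPoissonPP P lam Pi) {ι : Type} [Fintype ι] (A : ι → Set E)
    (k : ι → ℕ) (h1 : ∀ i, MeasurableSet (A i)) (h2 : ∀ i, hvol (A i) ≠ ⊤)
    (h3 : ∀ i j, i ≠ j → Disjoint (A i) (A j)) {U : Set E} (hU : MeasurableSet U)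
    (hU1 : hvol U ≤ 1) (h4 : ∀ i, A i ⊆ U) :
    Ind P lam Pi {ω | ∀ i, (Pi ω ∩ A i).encard = k i} U := by
  refine ⟨hU, hU1, fun T t1 t2 t3 r => ?_⟩
  have := h.law' (ι := Option ι) (fun j => j.elim T A) (fun j => j.elim r k)
    (by rintro (_ | i); exacts [t1, h1 i]) (by rintro (_ | i); exacts [t2, h2 i]) (by
      rintro (_ | i) (_ | j) hij
      · exact (hij rfl).elim
      · exact t3.mono_right (h4 j)
      · exact (t3.mono_right (h4 i)).symm
      · exact h3 i j fun e => hij (by rw [e]))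
  rw [Fintype.prod_option] at this
  rw [h.law' A k h1 h2 h3, mul_comm]
  refine Eq.trans ?_ this
  congr 1
  ext ω
  simp only [Option.forall, Set.mem_inter_iff, Set.mem_setOf_eq, Option.elim]
  exact and_comm

lemma real_of {X Ev : Set Ω} [IsProbabilityMeasure P] {x : ℝ} (hx : 0 ≤ x)
    (h : P X ≤ P Ev * ENNReal.ofReal x) : P.real X ≤ P.real Ev * x := by
  refine ENNReal.toReal_le_of_le_ofReal (by positivity) (h.trans (le_of_eq ?_))
  rw [ENNReal.ofReal_mul measureReal_nonneg, ofReal_measureReal]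

lemma Ind.void [IsProbabilityMeasure P] {Ev : Set Ω} {U : Set E} (hI : Ind P lam Pi Ev U)
    (hlam : 0 < lam) {T : Set E} (t1 : MeasurableSet T) (t2 : hvol T ≠ ⊤) {V : ℝ}
    (hV : ENNReal.ofReal V ≤ hvol T) :
    P.real (Ev ∩ {ω | ¬ (Pi ω ∩ T).Nonempty}) ≤ P.real Ev * exp (-(lam * (V - 1))) := by
  have f1 : hvol (T \ U) ≠ ⊤ := ne_top_of_le_ne_top t2 (measure_mono Set.diff_subset)
  have e := hI.2.2 (T \ U) (t1.diff hI.1) f1 Set.disjoint_sdiff_left 0
  refine real_of (by positivity) ((measure_mono ?_).trans (e.le.trans ?_))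
  · rintro ω ⟨h1, h2⟩
    refine ⟨h1, ?_⟩
    simp only [Set.mem_setOf_eq, Nat.cast_zero, Set.encard_eq_zero]
    rw [Set.mem_setOf_eq, Set.not_nonempty_iff_eq_empty] at h2
    exact Set.subset_eq_empty (Set.inter_subset_inter_right _ Set.diff_subset) h2
  · gcongr
    refine ENNReal.ofReal_le_ofReal ?_
    simp only [pow_zero, Nat.factorial_zero, Nat.cast_one, mul_one, div_one]
    have e1 : hvol T ≤ hvol (T \ U) + 1 :=
      (measure_mono (Set.subset_diff_union T U)).trans ((measure_union_le _ _).trans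
        (add_le_add le_rfl hI.2.1))
    have e2 : V ≤ (hvol (T \ U)).toReal + 1 := by
      have := hV.trans e1
      rw [ENNReal.ofReal_le_iff_le_toReal (ENNReal.add_ne_top.2 ⟨f1, ENNReal.one_ne_top⟩),
        ENNReal.toReal_add f1 ENNReal.one_ne_top] at this
      simpa using this
    gcongr
    linarith

lemma Ind.many [IsProbabilityMeasure P] (h : IsPoissonPP P lam Pi) {Ev : Set Ω} {U : Set E}
    (hI : Ind P lam Pi Ev U) (hlam : 0 < lam) {T : Set E} (t1 : MeasurableSet T) {V : ℝ}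
    (hV0 : 0 ≤ V) (hV : hvol T ≤ ENNReal.ofReal V) (t : ℕ) :
    P.real (Ev ∩ {ω | ¬ (Pi ω ∩ (T \ U)).encard ≤ t}) ≤ P.real Ev * (exp (lam * V) / 2 ^ t) := by
  have f0 : hvol (T \ U) ≤ ENNReal.ofReal V := (measure_mono Set.diff_subset).trans hV
  have f1 : hvol (T \ U) ≠ ⊤ := ne_top_of_le_ne_top ENNReal.ofReal_ne_top f0
  have f2 : (hvol (T \ U)).toReal ≤ V := ENNReal.toReal_le_of_le_ofReal hV0 f0
  set μ := lam * (hvol (T \ U)).toReal with hμ
  have hμ0 : 0 ≤ μ := by positivity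
  have hs := (hasSum_pois (μ := 2 * μ) (by positivity)).mul_left (exp μ / 2 ^ t)
  have hnull : P {ω | ¬ (Pi ω ∩ (T \ U)).Finite} = 0 := h.finite hlam (t1.diff hI.1) f1
  refine real_of (by positivity) ?_
  calc _ ≤ P ({ω | ¬ (Pi ω ∩ (T \ U)).Finite} ∪
        ⋃ r : ℕ, (Ev ∩ {ω | t < r ∧ (Pi ω ∩ (T \ U)).encard = r})) := by
        refine measure_mono ?_
        rintro ω ⟨h1, h2⟩
        by_cases hf : (Pi ω ∩ (T \ U)).Finite
        · refine Or.inr (Set.mem_iUnion.2 ⟨(Pi ω ∩ (T \ U)).ncard, h1, ?_, hf.cast_ncard_eq.symm⟩)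
          rw [Set.mem_setOf_eq, ← hf.cast_ncard_eq, not_le] at h2
          exact_mod_cast h2
        · exact Or.inl hf
    _ ≤ ∑' r : ℕ, P (Ev ∩ {ω | t < r ∧ (Pi ω ∩ (T \ U)).encard = r}) := by
        refine (measure_union_le _ _).trans ?_
        rw [hnull, zero_add]
        exact measure_iUnion_le _
    _ ≤ ∑' r : ℕ, P Ev * ENNReal.ofReal
          (exp μ / 2 ^ t * (exp (-(2 * μ)) * (2 * μ) ^ r / (r.factorial : ℝ))) := by
        refine ENNReal.tsum_le_tsum fun r => ?_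
        by_cases hr : t < r
        · simp only [hr, true_and]
          rw [hI.2.2 (T \ U) (t1.diff hI.1) f1 Set.disjoint_sdiff_left r]
          gcongr
          refine ENNReal.ofReal_le_ofReal ?_
          rw [← hμ]
          have e1 : exp μ / 2 ^ t * (exp (-(2 * μ)) * (2 * μ) ^ r / (r.factorial : ℝ)) =
              (2 ^ r / 2 ^ t) * (exp (-μ) * μ ^ r / (r.factorial : ℝ)) := by
            rw [show exp (-μ) = exp μ * exp (-(2 * μ)) by rw [← exp_add]; congr 1; ring, mul_pow]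
            ring
          rw [e1]
          refine le_mul_of_one_le_left (by positivity) ?_
          rw [le_div_iff₀ (by positivity), one_mul]
          exact pow_le_pow_right₀ (by norm_num) hr.le
        · simp [hr]
    _ ≤ _ := by
        rw [ENNReal.tsum_mul_left, ← ENNReal.ofReal_tsum_of_nonneg (fun r => by positivity)
          hs.summable, hs.tsum_eq, mul_one]
        have : μ ≤ lam * V := by rw [hμ]; gcongr
        gcongr

lemma Ind.full [IsProbabilityMeasure P] {Ev : Set Ω} {U : Set E} (hI : Ind P lam Pi Ev U)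
    (hlam : 0 < lam) (x0 : ℝ) {η n : ℝ} (hη : 0 < η) (hn : 0 ≤ n) (M : ℕ) :
    P.real (Ev ∩ {ω | ¬ Full (Pi ω) x0 η (η * n / 2) M}) ≤
      P.real Ev * ((2 * M + 1) ^ 2 * exp (-(lam * (n ^ 2 / 32 - 1)))) := by
  calc _ ≤ P.real (⋃ x ∈ Finset.Icc (-(M : ℤ)) M ×ˢ Finset.Icc (-(M : ℤ)) M,
        (Ev ∩ {ω | ¬ (Pi ω ∩ Bx x0 η (η * n / 2) x.1 x.2).Nonempty})) := by
        refine measureReal_mono ?_ (measure_ne_top _ _)
        rintro ω ⟨h1, h2⟩
        simp only [Full, Set.mem_setOf_eq, not_forall] at h2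
        obtain ⟨p, q, hp, hq, h3⟩ := h2
        exact Set.mem_biUnion (x := (p, q)) (Finset.mem_coe.2 (Finset.mem_product.2
          ⟨Finset.mem_Icc.2 (abs_le.1 hp), Finset.mem_Icc.2 (abs_le.1 hq)⟩)) ⟨h1, h3⟩
    _ ≤ _ := by
        refine (measureReal_biUnion_finset_le _ _).trans ((Finset.sum_le_card_nsmul _ _ _
          fun x _ => hI.void hlam (Bx_meas _ _ _ _ _) (Bx_fin _ hη (by positivity) _ _)
            (Bx_ge _ hη hn _ _)).trans (le_of_eq ?_))
        rw [Finset.card_product, Int.card_Icc, nsmul_eq_mul,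
          show ((M : ℤ) + 1 - -M).toNat = 2 * M + 1 by omega]
        push_cast
        ring

lemma Ind.conf [IsProbabilityMeasure P] {Ev : Set Ω} {U : Set E} (hI : Ind P lam Pi Ev U)
    (hlam : 0 < lam) (x0 : ℝ) {lo hi n : ℝ} (hlo : 0 < lo) (hhi : 0 < hi) (hn : 0 < n) (M : ℕ) :
    P.real (Ev ∩ {ω | ¬ Conf (Pi ω) x0 lo hi n M}) ≤
      P.real Ev * (2 * ((2 * M + 1) ^ 2 * exp (-(lam * (n ^ 2 / 32 - 1))))) := by
  have e1 := hI.full hlam x0 (η := 2 * hi) (by positivity) hn.le M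
  have e2 := hI.full hlam x0 (η := lo / (32 * n ^ 2)) (by positivity) hn.le M
  refine le_trans (measureReal_mono ?_ (measure_ne_top _ _)) ((measureReal_union_le _ _).trans
    ((add_le_add e1 e2).trans (le_of_eq (by ring))))
  rintro ω ⟨h1, h2⟩
  rcases not_and_or.1 h2 with h | h
  · exact Or.inl ⟨h1, h⟩
  · exact Or.inr ⟨h1, h⟩

end Pool.Agent.H78Z.AE
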