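import Pool.Agent.H78Z.AE.E

namespace Pool.Agent.H78Z.AE

open Real Filter Topology MeasureTheory ProbabilityTheory

abbrev J (m : ℕ) := Option (Fin m ⊕ Fin m)

def BB (x0 s : ℝ) (m : ℕ) : J m → Set E
  | none => UU x0 s \ ((⋃ i : Fin m, TP x0 s m i) ∪ ⋃ i : Fin m, TQ x0 s m i)
  | some (.inl i) => TP x0 s m i
  | some (.inr i) => TQ x0 s m i

def ka (m : ℕ) : J m → ℕ
  | none => 0
  | some _ => 1

lemma BB_meas (x0 s : ℝ) (m : ℕ) (j : J m) : MeasurableSet (BB x0 s m j) := by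
  rcases j with _ | i | i
  · exact (obox_meas _ _ _ _).diff ((MeasurableSet.iUnion fun i => obox_meas _ _ _ _).union
      (MeasurableSet.iUnion fun i => obox_meas _ _ _ _))
  · exact obox_meas _ _ _ _
  · exact obox_meas _ _ _ _

lemma BB_sub (x0 : ℝ) {s : ℝ} (hs : 0 < s) (m : ℕ) (j : J m) : BB x0 s m j ⊆ UU x0 s := by
  rcases j with _ | i | i
  · exact Set.diff_subset
  · exact TP_sub hs i.2
  · exact TQ_sub hs i.2

lemma BB_le (x0 : ℝ) {s : ℝ} (hs : 0 < s) (m : ℕ) (j : J m) : hvol (BB x0 s m j) ≤ 1 :=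
  (measure_mono (BB_sub x0 hs m j)).trans (UU_le x0 hs)

lemma BB_fin (x0 : ℝ) {s : ℝ} (hs : 0 < s) (m : ℕ) (j : J m) : hvol (BB x0 s m j) ≠ ⊤ :=
  ne_top_of_le_ne_top ENNReal.one_ne_top (BB_le x0 hs m j)

lemma BB_disj (x0 : ℝ) {s : ℝ} (hs : 0 < s) (m : ℕ) (i j : J m) (h : i ≠ j) :
    Disjoint (BB x0 s m i) (BB x0 s m j) := by
  rw [Set.disjoint_left]
  intro z hi hj
  rcases i with _ | i | i <;> rcases j with _ | j | j
  · exact h rfl
  · exact hi.2 (Or.inl (Set.mem_iUnion.2 ⟨j, hj⟩))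
  · exact hi.2 (Or.inr (Set.mem_iUnion.2 ⟨j, hj⟩))
  · exact hj.2 (Or.inl (Set.mem_iUnion.2 ⟨i, hi⟩))
  · exact h (by rw [Fin.ext (TP_disj hs i.pos hi hj)])
  · exact TPQ_disj hs i.pos hi hj
  · exact hj.2 (Or.inr (Set.mem_iUnion.2 ⟨i, hi⟩))
  · exact TPQ_disj hs i.pos hj hi
  · exact h (by rw [Fin.ext (TQ_disj hs i.pos hi hj)])

lemma BB_vol (x0 s : ℝ) (m : ℕ) (j : J m) : hvol (BB x0 s m j) = hvol (BB 0 s m j) := by
  rw [← hvol_shift (BB_meas 0 s m j) (-x0)]
  congr 1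
  rcases j with _ | i | i
  · simp only [BB, UU, TP, TQ, Set.preimage_diff, Set.preimage_union, Set.preimage_iUnion,
      sbox_shift]
  · simp only [BB, TP, sbox_shift]
  · simp only [BB, TQ, sbox_shift]

lemma cluster_of {S : Set E} {x0 s : ℝ} {m : ℕ} (h : ∀ j, (S ∩ BB x0 s m j).encard = ka m j) :
    Cluster S x0 s m := by
  refine ⟨fun i hi => Set.encard_eq_one.1 (h (some (.inl ⟨i, hi⟩))),
    fun i hi => Set.encard_eq_one.1 (h (some (.inr ⟨i, hi⟩))), fun r hr hU => ?_⟩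
  have h0 : S ∩ BB x0 s m none = ∅ := Set.encard_eq_zero.1 (h none)
  by_contra hc
  have : r ∈ S ∩ BB x0 s m none := by
    refine ⟨hr, hU, fun hu => hc ?_⟩
    rcases hu with hu | hu
    · obtain ⟨i, hi⟩ := Set.mem_iUnion.1 hu
      exact Or.inl ⟨i, i.2, hi⟩
    · obtain ⟨i, hi⟩ := Set.mem_iUnion.1 hu
      exact Or.inr ⟨i, i.2, hi⟩
  rw [h0] at this
  exact this

lemma pois_ge {lam : ℝ} (hlam : 0 < lam) {s : ℝ} (hs : 0 < s) {m : ℕ} (hm : 0 < m) (j : J m) :
    ENNReal.ofReal (exp (-lam) * min 1 lam * dl m ^ 3) ≤ pois lam (BB 0 s m j) (ka m j) := by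
  refine ENNReal.ofReal_le_ofReal ?_
  have h1 : (hvol (BB 0 s m j)).toReal ≤ 1 :=
    ENNReal.toReal_le_of_le_ofReal zero_le_one (by simpa using BB_le 0 hs m j)
  have h2 : exp (-lam) ≤ exp (-(lam * (hvol (BB 0 s m j)).toReal)) := by
    gcongr; nlinarith
  have d0 := dl_pos hm
  have d1 : dl m ≤ 1 := by linarith [dl_le hm, sg_le hm]
  have d2 : dl m ^ 3 ≤ 1 := pow_le_one₀ d0.le d1
  have m0 : 0 ≤ min 1 lam := le_min zero_le_one hlam.le
  have key : ∀ A : Set E, hvol A ≠ ⊤ → ENNReal.ofReal (dl m ^ 3) ≤ hvol A →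
      min 1 lam * dl m ^ 3 ≤ lam * (hvol A).toReal := fun A h3 h4 =>
    mul_le_mul (min_le_right _ _) ((ENNReal.ofReal_le_iff_le_toReal h3).1 h4) (by positivity)
      hlam.le
  rw [mul_assoc]
  rcases j with _ | i | i
  · simp only [ka, pow_zero, Nat.factorial_zero, Nat.cast_one, div_one]
    exact mul_le_mul h2 (mul_le_one₀ (min_le_left _ _) (by positivity) d2) (by positivity)
      (by positivity)
  · simp only [ka, pow_one, Nat.factorial_one, Nat.cast_one, div_one]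
    exact mul_le_mul h2 (key _ (BB_fin 0 hs m _) (sbox_ge hs d0.le (TP_sub hs i.2)))
      (by positivity) (by positivity)
  · simp only [ka, pow_one, Nat.factorial_one, Nat.cast_one, div_one]
    exact mul_le_mul h2 (key _ (BB_fin 0 hs m _) (sbox_ge hs d0.le (TQ_sub hs i.2)))
      (by positivity) (by positivity)

variable {Ω : Type} [MeasurableSpace Ω] {P : Measure Ω} {lam : ℝ} {Pi : Ω → Set E}

lemma Ind.good [IsProbabilityMeasure P] (h : IsPoissonPP P lam Pi) {Ev : Set Ω} (hlam : 0 < lam)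
    (x0 : ℝ) (k : ℕ) (hI : Ind P lam Pi Ev (UU x0 ((1 / 2) ^ k))) {n : ℝ} (hn : 0 < n) (M t : ℕ) :
    P.real (Ev ∩ {ω | ¬ Good (Pi ω) x0 k n M t}) ≤ P.real Ev * ((k + 1) *
      (4 * ((2 * M + 1) ^ 2 * exp (-(lam * (n ^ 2 / 32 - 1)))) +
        exp (lam * (256 * 64 ^ 12 * n ^ 24)) / 2 ^ t)) := by
  have hlo0 : ∀ j, 0 < lo0 j := fun j => by unfold lo0; positivity
  have hhi0 : ∀ j, 0 < hi0 j := fun j => by unfold hi0; positivity
  have hlo1 : ∀ j, 0 < lo1 n j := fun j => by have := hlo0 j; unfold lo1; positivity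
  have hhi1 : ∀ j, 0 < hi1 n j := fun j => by have := hhi0 j; unfold hi1; positivity
  have hlo2 : ∀ j, 0 < lo2 n j := fun j => by have := hlo1 j; unfold lo2; positivity
  have hhi2 : ∀ j, 0 < hi2 n j := fun j => by have := hhi1 j; unfold hi2; positivity
  have hR : ∀ j, hvol (Reg x0 (lo2 n j) (hi2 n j)) ≤ ENNReal.ofReal (256 * 64 ^ 12 * n ^ 24) := by
    intro j
    refine (Reg_le x0 (hlo2 j) (hhi2 j).le).trans (le_of_eq ?_)
    have : hi2 n j / lo2 n j = 4 * 64 ^ 4 * n ^ 8 := by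
      unfold hi2 lo2 hi1 lo1 hi0 lo0; field_simp; ring
    rw [this]
    congr 1
    ring
  calc _ ≤ P.real (⋃ j ∈ Finset.range (k + 1),
        ((Ev ∩ {ω | ¬ Conf (Pi ω) x0 (lo0 j) (hi0 j) n M}) ∪
          (Ev ∩ {ω | ¬ Conf (Pi ω) x0 (lo1 n j) (hi1 n j) n M}) ∪
          (Ev ∩ {ω | ¬ (Pi ω ∩ (Reg x0 (lo2 n j) (hi2 n j) \ UU x0 ((1 / 2) ^ k))).encard ≤ t}))) := by
        refine measureReal_mono ?_ (measure_ne_top _ _)
        rintro ω ⟨h1, h2⟩
        simp only [Good, Set.mem_setOf_eq, not_forall] at h2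
        obtain ⟨j, hj, h3⟩ := h2
        refine Set.mem_biUnion (x := j) (Finset.mem_coe.2 (Finset.mem_range.2 (by omega))) ?_
        rcases not_and_or.1 h3 with h4 | h4
        · exact Or.inl (Or.inl ⟨h1, h4⟩)
        rcases not_and_or.1 h4 with h4 | h4
        · exact Or.inl (Or.inr ⟨h1, h4⟩)
        · exact Or.inr ⟨h1, h4⟩
    _ ≤ _ := by
        refine (measureReal_biUnion_finset_le _ _).trans ((Finset.sum_le_card_nsmul _ _ _
          fun j _ => (measureReal_union_le _ _).trans (add_le_add ((measureReal_union_le _ _).trans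
            (add_le_add (hI.conf hlam x0 (hlo0 j) (hhi0 j) hn M)
              (hI.conf hlam x0 (hlo1 j) (hhi1 j) hn M)))
            (hI.many h hlam (Reg_meas _ _ _) (by positivity) (hR j) t))).trans (le_of_eq ?_))
        rw [Finset.card_range, nsmul_eq_mul]
        push_cast
        ring

theorem IsPoissonPP.stage [IsProbabilityMeasure P] (h : IsPoissonPP P lam Pi) (hlam : 0 < lam)
    {n m : ℕ} (hn : 0 < n) (hm : 0 < m) (M t : ℕ)
    (hq : (1 / 2) ^ n ≤ exp (-lam) * min 1 lam * dl m ^ 3) :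
    P.real {ω | ¬ ∃ x0 : ℝ, 0 ≤ x0 ∧ x0 ≤ 1 ∧ Cluster (Pi ω) x0 ((1 / 2) ^ (4 * m * n)) m ∧
      Good (Pi ω) x0 (4 * m * n) n M t} ≤ exp (-n) + (n + 1) * (((4 * m * n : ℕ) + 1) *
      (4 * ((2 * M + 1) ^ 2 * exp (-(lam * (n ^ 2 / 32 - 1)))) +
        exp (lam * (256 * 64 ^ 12 * n ^ 24)) / 2 ^ t)) := by
  set k := 4 * m * n with hk
  set s : ℝ := (1 / 2) ^ k with hsd
  have hs : 0 < s := by positivity
  set ε : ℝ := ((k : ℕ) + 1) * (4 * ((2 * M + 1) ^ 2 * exp (-(lam * (n ^ 2 / 32 - 1)))) +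
        exp (lam * (256 * 64 ^ 12 * n ^ 24)) / 2 ^ t) with hε
  have hε0 : 0 ≤ ε := by positivity
  let Ev : ℕ → Set Ω := fun i => {ω | ∀ j, (Pi ω ∩ BB (i * s) s m j).encard = ka m j}
  have hmeas : ∀ i, MeasurableSet (Ev i) := by
    intro i
    have : Ev i = ⋂ j, {ω | (Pi ω ∩ BB (i * s) s m j).encard = ka m j} := by
      ext ω; simp [Ev]
    rw [this]
    exact MeasurableSet.iInter fun j => h.meas _ (BB_meas _ _ _ _) (BB_fin _ hs _ _) _
  have hE : ∀ i, P (Ev i) = ∏ j, pois lam (BB (i * s) s m j) (ka m j) := fun i =>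
    h.law' _ _ (BB_meas _ _ _) (BB_fin _ hs _) (BB_disj _ hs _)
  have hind : iIndepSet Ev P := by
    rw [iIndepSet_iff_meas_biInter hmeas]
    intro T
    have := h.law' (ι := T × J m) (fun x => BB ((x.1 : ℕ) * s) s m x.2) (fun x => ka m x.2)
      (fun x => BB_meas _ _ _ _) (fun x => BB_fin _ hs _ _) (by
        rintro ⟨i, j⟩ ⟨i', j'⟩ hne
        by_cases hi : i = i'
        · subst hi
          exact BB_disj _ hs _ _ _ (fun e => hne (by rw [show j = j' from e]))
        · rw [Set.disjoint_left]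
          intro z hz hz'
          have h1 := abs_lt.1 (BB_sub _ hs _ _ hz).1
          have h2 := abs_lt.1 (BB_sub _ hs _ _ hz').1
          apply hi
          apply Subtype.ext
          have a1 : ((i : ℕ) : ℝ) < (i' : ℕ) + 1 := by
            refine lt_of_mul_lt_mul_right ?_ hs.le
            linarith
          have a2 : ((i' : ℕ) : ℝ) < (i : ℕ) + 1 := by
            refine lt_of_mul_lt_mul_right ?_ hs.le
            linarith
          have a3 : (i : ℕ) < (i' : ℕ) + 1 := by exact_mod_cast a1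
          have a4 : (i' : ℕ) < (i : ℕ) + 1 := by exact_mod_cast a2
          omega)
    rw [Fintype.prod_prod_type] at this
    rw [← Finset.prod_coe_sort T (fun i => P (Ev i))]
    simp only [hE]
    rw [← this]
    congr 1
    ext ω
    simp [Ev]
  have hc : ∀ i, P (Ev i) = ∏ j, pois lam (BB 0 s m j) (ka m j) := by
    intro i
    rw [hE]
    refine Finset.prod_congr rfl fun j _ => ?_
    unfold pois
    rw [BB_vol]
  set p := P.real (Ev 0) with hp
  have hpi : ∀ i, P.real (Ev i) = p := fun i => by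
    rw [hp, measureReal_def, measureReal_def, hc, hc]
  have hp1 : p ≤ 1 := measureReal_le_one
  have hp0 : (1 / 2 : ℝ) ^ (3 * m * n) ≤ p := by
    rw [hp, measureReal_def, ← ENNReal.ofReal_le_iff_le_toReal (measure_ne_top _ _), hc]
    calc ENNReal.ofReal ((1 / 2) ^ (3 * m * n))
        ≤ ENNReal.ofReal (((1 / 2) ^ n) ^ (Finset.univ : Finset (J m)).card) := by
          refine ENNReal.ofReal_le_ofReal ?_
          rw [← pow_mul]
          refine pow_le_pow_of_le_one (by norm_num) (by norm_num) ?_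
          simp only [Finset.card_univ, Fintype.card_option, Fintype.card_sum, Fintype.card_fin]
          nlinarith
      _ = ∏ _j : J m, ENNReal.ofReal ((1 / 2) ^ n) := by
          rw [Finset.prod_const, ENNReal.ofReal_pow (by positivity)]
      _ ≤ _ := Finset.prod_le_prod' fun j _ =>
          (ENNReal.ofReal_le_ofReal hq).trans (pois_ge hlam hs hm j)
  have hpp : 0 < p := lt_of_lt_of_le (by positivity) hp0
  set N := ⌈(n : ℝ) / p⌉₊ with hN
  have hN1 : (n : ℝ) ≤ N * p := by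
    rw [← div_le_iff₀ hpp]; exact Nat.le_ceil _
  have hN2 : N * p ≤ n + 1 := by
    have := Nat.ceil_lt_add_one (show 0 ≤ (n : ℝ) / p by positivity)
    have h2 : (N : ℝ) * p ≤ (n / p + 1) * p := by gcongr
    rw [add_mul, div_mul_cancel₀ _ hpp.ne'] at h2
    linarith
  have hN3 : (N : ℝ) * s ≤ 1 := by
    have e1 : N ≤ 2 ^ k := by
      rw [hN, Nat.ceil_le, div_le_iff₀ hpp]
      have e2 : (n : ℝ) ≤ 2 ^ (m * n) := by
        have : n ≤ 2 ^ (m * n) := (Nat.lt_two_pow_self (n := n)).le.trans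
          (Nat.pow_le_pow_right (by norm_num) (Nat.le_mul_of_pos_left _ hm))
        exact_mod_cast this
      calc (n : ℝ) ≤ 2 ^ (m * n) := e2
        _ = 2 ^ k * (1 / 2) ^ (3 * m * n) := by
            rw [show k = m * n + 3 * m * n by rw [hk]; ring, pow_add, mul_assoc, ← mul_pow]
            norm_num
        _ ≤ _ := by push_cast; gcongr
    have e2 : (N : ℝ) ≤ 2 ^ k := by exact_mod_cast e1
    calc (N : ℝ) * s ≤ 2 ^ k * s := by gcongr
      _ = 1 := by rw [hsd, ← mul_pow]; norm_num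
  have b1 : P.real (⋂ i ∈ Finset.range N, (Ev i)ᶜ) ≤ exp (-n) := by
    have e1 := ((iIndepSet_iff_iIndep _ _).1 hind).meas_biInter (S := Finset.range N)
      (s := fun i => (Ev i)ᶜ) fun i _ =>
        (MeasurableSpace.measurableSet_generateFrom (Set.mem_singleton _)).compl
    rw [measureReal_def, e1, ENNReal.toReal_prod]
    calc ∏ i ∈ Finset.range N, (P (Ev i)ᶜ).toReal = ∏ _i ∈ Finset.range N, (1 - p) := by
          refine Finset.prod_congr rfl fun i _ => ?_
          rw [← measureReal_def, probReal_compl_eq_one_sub (hmeas i), hpi]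
      _ ≤ ∏ _i ∈ Finset.range N, exp (-p) :=
          Finset.prod_le_prod (fun _ _ => by linarith) fun _ _ => by
            linarith [add_one_le_exp (-p)]
      _ ≤ _ := by
          rw [Finset.prod_const, Finset.card_range, ← exp_nat_mul]
          gcongr
          linarith
  have b2 : P.real (⋃ i ∈ Finset.range N, (Ev i ∩ {ω | ¬ Good (Pi ω) (i * s) k n M t})) ≤
      (n + 1) * ε := by
    refine (measureReal_biUnion_finset_le _ _).trans ((Finset.sum_le_card_nsmul _ _ (p * ε)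
      fun i _ => ?_).trans ?_)
    · rw [← hpi i]
      exact Ind.good h hlam _ k (h.ind _ _ (BB_meas _ _ _) (BB_fin _ hs _) (BB_disj _ hs _)
        (obox_meas _ _ _ _) (UU_le _ hs) (BB_sub _ hs _)) (by exact_mod_cast hn) M t
    · rw [Finset.card_range, nsmul_eq_mul, ← mul_assoc]
      gcongr
  refine le_trans (measureReal_mono ?_ (measure_ne_top _ _)) ((measureReal_union_le _ _).trans
    (add_le_add b1 b2))
  intro ω hω
  by_contra hc2
  rw [Set.mem_union, not_or] at hc2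
  obtain ⟨c1, c2⟩ := hc2
  simp only [Set.mem_iInter, not_forall, Set.mem_compl_iff, not_not] at c1
  obtain ⟨i, hi, c1⟩ := c1
  refine hω ⟨i * s, by positivity, ?_, cluster_of c1, ?_⟩
  · have : (i : ℝ) ≤ N := by exact_mod_cast (Finset.mem_range.1 hi).le
    exact le_trans (by gcongr) hN3
  · by_contra c3
    exact c2 (Set.mem_biUnion (Finset.mem_coe.2 hi) ⟨c1, c3⟩)

end Pool.Agent.H78Z.AE
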