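import Pool.Agent.H78Z.AE.F

namespace Pool.Agent.H78Z.AE

open Real Filter Topology MeasureTheory ProbabilityTheory

variable {Ω : Type} [MeasurableSpace Ω] {P : Measure Ω} {lam : ℝ} {Pi : Ω → Set E}

lemma tend_pe (a : ℕ) {b : ℝ} (hb : 0 < b) :
    Tendsto (fun n : ℕ => (n : ℝ) ^ a * exp (-b * n)) atTop (𝓝 0) := by
  have := (tendsto_rpow_mul_exp_neg_mul_atTop_nhds_zero (a : ℝ) b hb).comp
    tendsto_natCast_atTop_atTop
  refine this.congr fun n => ?_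
  simp [Real.rpow_natCast]

lemma ae_freq [IsProbabilityMeasure P] {A : ℕ → Ω → Prop} {δ : ℕ → ℝ}
    (hδ : Tendsto δ atTop (𝓝 0)) (h : ∀ᶠ n in atTop, P.real {ω | ¬ A n ω} ≤ δ n) :
    ∀ᵐ ω ∂P, ∀ N, ∃ n, N ≤ n ∧ A n ω := by
  rw [ae_all_iff]
  intro N
  rw [ae_iff, ← measureReal_eq_zero_iff]
  refine le_antisymm (ge_of_tendsto hδ ?_) measureReal_nonneg
  filter_upwards [h, eventually_ge_atTop N] with n h1 h2
  refine le_trans (measureReal_mono ?_ (measure_ne_top _ _)) h1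
  exact fun ω hω hA => hω ⟨n, h2, hA⟩

lemma void_le (hlam : 0 < lam) {x : ℝ} (hx : 1 ≤ x) :
    exp (-(lam * (x ^ 2 / 32 - 1))) ≤ exp lam * exp (-(lam / 32) * x) := by
  rw [← exp_add]
  gcongr
  have : x ≤ x ^ 2 := by nlinarith
  nlinarith [mul_le_mul_of_nonneg_left this hlam.le]

theorem IsPoissonPP.conf [IsProbabilityMeasure P] (h : IsPoissonPP P lam Pi) (hlam : 0 < lam) :
    ∀ᵐ ω ∂P, ∀ a : ℕ, 1 ≤ a → ∃ n : ℝ, ∃ M : ℕ, 1 ≤ n ∧ 320 * n ^ 3 * a ≤ M * (1 / a) ∧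
      Conf (Pi ω) 0 (1 / a) a n M := by
  rw [ae_all_iff]
  intro a
  by_cases ha : 1 ≤ a
  swap
  · exact Eventually.of_forall fun ω h => (ha h).elim
  have ha' : (1 : ℝ) ≤ a := by exact_mod_cast ha
  have key := ae_freq (P := P) (A := fun n ω => Conf (Pi ω) 0 (1 / a) a n (320 * a ^ 2 * n ^ 3))
    (δ := fun n => (2 * (641 * a ^ 2) ^ 2 * exp lam) * ((n : ℝ) ^ 6 * exp (-(lam / 32) * n)))
    (by simpa using (tend_pe 6 (b := lam / 32) (by positivity)).const_mul _) (by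
      filter_upwards [eventually_ge_atTop 1] with n hn
      have hn' : (1 : ℝ) ≤ n := by exact_mod_cast hn
      have e := h.ind_univ.conf hlam 0 (lo := 1 / a) (hi := a) (n := n) (by positivity)
        (by positivity) (by positivity) (320 * a ^ 2 * n ^ 3)
      rw [Set.univ_inter, probReal_univ, one_mul] at e
      refine e.trans ?_
      have e1 : (2 * ((320 * a ^ 2 * n ^ 3 : ℕ) : ℝ) + 1) ≤ 641 * a ^ 2 * n ^ 3 := by
        push_cast
        have : (1 : ℝ) ≤ a ^ 2 * n ^ 3 := one_le_mul_of_one_le_of_one_le (one_le_pow₀ ha')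
          (one_le_pow₀ hn')
        linarith
      calc _ ≤ 2 * ((641 * a ^ 2 * n ^ 3 : ℝ) ^ 2 * (exp lam * exp (-(lam / 32) * n))) := by
            gcongr
            exact void_le hlam hn'
        _ = _ := by ring)
  filter_upwards [key] with ω hω _
  obtain ⟨n, hn, hc⟩ := hω 1
  refine ⟨n, _, by exact_mod_cast hn, le_of_eq ?_, hc⟩
  push_cast
  field_simp

theorem IsPoissonPP.clusters [IsProbabilityMeasure P] (h : IsPoissonPP P lam Pi)
    (hlam : 0 < lam) : ∃ ct : ℕ, ∀ᵐ ω ∂P, ∀ N : ℕ, ∃ n : ℕ, N ≤ n ∧ ∃ x0 : ℝ, 0 ≤ x0 ∧ x0 ≤ 1 ∧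
      Cluster (Pi ω) x0 ((1 / 2) ^ (4 * n ^ 50 * n)) (n ^ 50) ∧
      Good (Pi ω) x0 (4 * n ^ 50 * n) n (320 * 4 * 64 ^ 2 * n ^ 7) (ct * n ^ 24) := by
  obtain ⟨ct, hct⟩ := exists_nat_ge (2 * (lam * (256 * 64 ^ 12) + 1))
  refine ⟨ct, ae_freq (δ := fun n => (n : ℝ) ^ 0 * exp (-1 * n) +
    (40 * (3 * (320 * 4 * 64 ^ 2)) ^ 2 * exp lam) * ((n : ℝ) ^ 66 * exp (-(lam / 32) * n)) +
    10 * ((n : ℝ) ^ 52 * exp (-1 * n))) ?_ ?_⟩
  · simpa using ((tend_pe 0 one_pos).add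
      ((tend_pe 66 (b := lam / 32) (by positivity)).const_mul _)).add
        ((tend_pe 52 one_pos).const_mul 10)
  have hq := (tendsto_pow_const_div_const_pow_of_one_lt 300 (r := 2) (by norm_num)).eventually
    (gt_mem_nhds (show (0 : ℝ) < exp (-lam) * min 1 lam / 4000 ^ 3 by
      have : 0 < min 1 lam := lt_min one_pos hlam
      positivity))
  filter_upwards [hq, eventually_ge_atTop 1] with n hq hn
  have hn' : (1 : ℝ) ≤ n := by exact_mod_cast hn
  have hn0 : (0 : ℝ) < n := by linarith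
  refine (h.stage hlam (n := n) (m := n ^ 50) hn (by positivity) _ _ ?_).trans ?_
  · have e : dl (n ^ 50) ^ 3 = 1 / (4000 ^ 3 * (n : ℝ) ^ 300) := by
      unfold dl sg; push_cast; field_simp; norm_num
    rw [div_lt_div_iff₀ (by positivity) (by positivity)] at hq
    rw [e, one_div_pow, mul_one_div, div_le_div_iff₀ (by positivity) (by positivity)]
    linarith
  · have e1 : ((4 * n ^ 50 * n : ℕ) : ℝ) + 1 ≤ 5 * n ^ 51 := by
      push_cast
      have : (1 : ℝ) ≤ n ^ 51 := one_le_pow₀ hn'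
      have e : (4 : ℝ) * n ^ 50 * n = 4 * n ^ 51 := by ring
      linarith
    have e2 : (2 * ((320 * 4 * 64 ^ 2 * n ^ 7 : ℕ) : ℝ) + 1) ≤ 3 * (320 * 4 * 64 ^ 2) * n ^ 7 := by
      push_cast
      have : (1 : ℝ) ≤ n ^ 7 := one_le_pow₀ hn'
      linarith
    have e3 : exp (lam * (256 * 64 ^ 12 * n ^ 24)) / 2 ^ (ct * n ^ 24) ≤ exp (-1 * n) := by
      rw [div_le_iff₀ (by positivity)]
      have f1 : exp (1 / 2) ≤ 2 := by
        have := Real.log_two_gt_d9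
        rw [← le_log_iff_exp_le (by norm_num)]
        linarith
      have f2 : (n : ℝ) ≤ n ^ 24 := le_self_pow₀ hn' (by norm_num)
      calc _ ≤ exp (-1 * n) * exp (1 / 2) ^ (ct * n ^ 24) := by
            rw [← exp_nat_mul, ← exp_add]
            gcongr
            push_cast
            have : 2 * (lam * (256 * 64 ^ 12) + 1) * n ^ 24 ≤ ct * (n : ℝ) ^ 24 := by gcongr
            linarith
        _ ≤ _ := by gcongr
    have e4 : (n : ℝ) + 1 ≤ 2 * n := by linarith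
    have e5 := void_le hlam hn'
    calc _ ≤ exp (-n) + (2 * n) * ((5 * n ^ 51) * (4 * ((3 * (320 * 4 * 64 ^ 2) * n ^ 7) ^ 2 *
          (exp lam * exp (-(lam / 32) * n))) + exp (-1 * n))) := by gcongr
      _ = _ := by rw [show -(n : ℝ) = -1 * n by ring]; ring

theorem main [IsProbabilityMeasure P] (h : IsPoissonPP P lam Pi) (hlam : 0 < lam) :
    ∀ᵐ ω ∂P, (Pi ω).Nonempty ∧ (∀ v, ((vorGraph (Pi ω)).neighborSet v).Finite) ∧
      ∀ ρ, Tendsto (isoInf (vorGraph (Pi ω)) ρ) atTop (𝓝 0) := by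
  have h1 : ∀ᵐ ω ∂P, ∀ a : ℕ, (Pi ω ∩ Reg 0 (1 / (a + 1 : ℝ)) (a + 1)).Finite :=
    ae_all_iff.2 fun a => h.finite hlam (Reg_meas _ _ _)
      (ne_top_of_le_ne_top ENNReal.ofReal_ne_top (Reg_le 0 (by positivity) (by positivity)))
  obtain ⟨ct, h3⟩ := h.clusters hlam
  filter_upwards [h1, h.conf hlam, h3] with ω h1 h2 h3
  have hS := h.sub ω
  have hf : LocFin (Pi ω) := by
    intro b hb
    obtain ⟨a, ha⟩ := exists_nat_ge b
    exact (h1 a).subset (Set.inter_subset_inter_right _ (Reg_mono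
      (one_div_le_one_div_of_le (by linarith) (by linarith)) (by linarith)))
  have hdeg := finite_deg hS hf h2
  refine ⟨?_, hdeg, fun ρ => ?_⟩
  · obtain ⟨n, hn, x0, -, -, hc, -⟩ := h3 1
    obtain ⟨p, hp⟩ := hc.1 0 (by positivity)
    exact ⟨p, (hp.ge rfl).1⟩
  obtain ⟨D0, hD⟩ := det hS hf hdeg ρ
  refine tendsto_const_nhds.congr fun N => Eq.symm ?_
  by_contra hne
  obtain ⟨L, hL⟩ := ENNReal.exists_inv_nat_lt hne
  have hL0 : L ≠ 0 := by
    rintro rfl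
    simp at hL
  obtain ⟨n, hn, x0, a1, a2, a3, a4⟩ := h3 (1 + N + L * (D0 + (2 + 5 * ct) * ct))
  have hn1 : 1 ≤ n := by omega
  have p51 : 1 ≤ n ^ 51 := Nat.one_le_pow _ _ hn1
  obtain ⟨T, t1, t2, t3, t4⟩ := hD x0 _ n _ _ _ a1 a2
    (by rw [show 4 * n ^ 50 * n = 4 * n ^ 51 by ring]; omega) (by exact_mod_cast hn1)
    (by push_cast; norm_num) (by positivity) a3 a4
  have q1 : N ≤ volE (vorGraph (Pi ω)) T := by
    refine le_trans ?_ t3
    calc N ≤ n := by omega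
      _ ≤ n ^ 100 := Nat.le_self_pow (by norm_num) _
      _ = _ := by ring
  have q2 : L * bdry (vorGraph (Pi ω)) T ≤ volE (vorGraph (Pi ω)) T := by
    refine le_trans ?_ t3
    have r1 : n ^ 50 ≤ n ^ 75 := Nat.pow_le_pow_right hn1 (by norm_num)
    have r2 : 1 ≤ n ^ 99 := Nat.one_le_pow _ _ hn1
    have r3 : 4 * n ^ 50 * n + 1 ≤ 5 * n ^ 51 := by
      rw [show 4 * n ^ 50 * n = 4 * n ^ 51 by ring]; omega
    calc L * bdry (vorGraph (Pi ω)) T
        ≤ L * (D0 + (2 * n ^ 50 + (4 * n ^ 50 * n + 1) * (ct * n ^ 24)) * (ct * n ^ 24)) := by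
          gcongr
      _ ≤ L * (D0 * n ^ 99 + (2 * n ^ 75 + (5 * n ^ 51) * (ct * n ^ 24)) * (ct * n ^ 24)) := by
          gcongr
          exact Nat.le_mul_of_pos_right _ r2
      _ = (L * (D0 + (2 + 5 * ct) * ct)) * n ^ 99 := by ring
      _ ≤ n * n ^ 99 := by gcongr; omega
      _ = _ := by ring
  refine absurd hL (not_lt.2 ?_)
  unfold isoInf
  refine (iInf_le_of_le T (iInf_le_of_le t1 (iInf_le_of_le t2 (iInf_le _ q1)))).trans ?_
  refine ENNReal.div_le_of_le_mul ?_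
  have q3 : (L : ENNReal) * (bdry (vorGraph (Pi ω)) T : ENNReal) ≤ volE (vorGraph (Pi ω)) T := by
    exact_mod_cast q2
  calc (bdry (vorGraph (Pi ω)) T : ENNReal)
      = (L : ENNReal)⁻¹ * ((L : ENNReal) * bdry (vorGraph (Pi ω)) T) := by
        rw [← mul_assoc, ENNReal.inv_mul_cancel (by exact_mod_cast hL0) (by simp), one_mul]
    _ ≤ _ := by gcongr

end Pool.Agent.H78Z.AE
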